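import Pool.Agent.MP_18f3df_al.Defs

/-!
# Clones, generated clones, polymorphism clones and the cofinality of a clone
-/

namespace Pool.MP_18f3df_al

open Cardinal Set

variable {A : Type}

theorem isClone_pol {ι : Type} (R : ι → A → A → Prop) : IsClone (Pol R) where
  proj := fun n i r x y h => h i
  comp := fun n m f g hf hg r x y h => hf r _ _ (fun i => hg i r x y h)

theorem isClone_cloneGen (S : Set (Op A)) : IsClone (cloneGen S) where
  proj := fun n i => mem_sInter.2 fun C hC => hC.1.proj n i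
  comp := fun n m f g hf hg => mem_sInter.2 fun C hC =>
    hC.1.comp n m f g (mem_sInter.1 hf C hC) (fun i => mem_sInter.1 (hg i) C hC)

theorem subset_cloneGen (S : Set (Op A)) : S ⊆ cloneGen S :=
  fun _ hx => mem_sInter.2 fun _ hC => hC.2 hx

theorem cloneGen_subset {S C : Set (Op A)} (hC : IsClone C) (h : S ⊆ C) : cloneGen S ⊆ C :=
  fun _ hx => mem_sInter.1 hx C ⟨hC, h⟩

theorem cloneGen_mono {S T : Set (Op A)} (h : S ⊆ T) : cloneGen S ⊆ cloneGen T :=
  cloneGen_subset (isClone_cloneGen T) (h.trans (subset_cloneGen T))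

/-- The union of a nonempty chain of clones is a clone. -/
theorem isClone_iUnion {ι : Type} [LinearOrder ι] [Nonempty ι] (G : ι → Set (Op A))
    (hG : Monotone G) (hc : ∀ i, IsClone (G i)) : IsClone (⋃ i, G i) where
  proj := fun n i => mem_iUnion.2 ⟨Classical.arbitrary ι, (hc _).proj n i⟩
  comp := by
    intro n m f g hf hg
    obtain ⟨i₀, hi₀⟩ := mem_iUnion.1 hf
    choose k hk using fun i => mem_iUnion.1 (hg i)
    obtain ⟨M, hM⟩ := (Set.finite_range k).bddAbove
    refine mem_iUnion.2 ⟨max i₀ M, (hc _).comp n m f g (hG (le_max_left _ _) hi₀) fun i => ?_⟩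
    exact hG ((hM ⟨i, rfl⟩).trans (le_max_right _ _)) (hk i)

/-- Any countable set of operations generates a countable clone. -/
theorem countable_cloneGen [Countable A] {S : Set (Op A)} (hS : S.Countable) :
    (cloneGen S).Countable := by
  classical
  -- one composition step
  let step : Set (Op A) → Set (Op A) := fun C =>
    C ∪ ⋃ n : ℕ, ⋃ m : ℕ, (fun p : ((Fin (n + 1) → A) → A) × (Fin (n + 1) → (Fin (m + 1) → A) → A)
      => (⟨m, fun x => p.1 (fun i => p.2 i x)⟩ : Op A)) ''
      ({f | (⟨n, f⟩ : Op A) ∈ C} ×ˢ (Set.univ.pi fun _ => {g | (⟨m, g⟩ : Op A) ∈ C}))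
  have hslice : ∀ (C : Set (Op A)) (n : ℕ), C.Countable →
      {f : (Fin (n + 1) → A) → A | (⟨n, f⟩ : Op A) ∈ C}.Countable := by
    intro C n hC
    refine hC.preimage_of_injOn (f := fun f : (Fin (n + 1) → A) → A => (⟨n, f⟩ : Op A)) ?_
    intro a _ b _ hab
    simpa using hab
  have hstep : ∀ C : Set (Op A), C.Countable → (step C).Countable := by
    intro C hC
    refine hC.union (countable_iUnion fun n => countable_iUnion fun m => Countable.image ?_ _)
    refine (hslice C n hC).prod (Set.countable_univ_pi fun _ => hslice C m hC)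
  let L : ℕ → Set (Op A) := fun k => Nat.rec
    (S ∪ ⋃ n : ℕ, ⋃ i : Fin (n + 1), {(⟨n, fun x => x i⟩ : Op A)}) (fun _ C => step C) k
  have hL0 : L 0 = S ∪ ⋃ n : ℕ, ⋃ i : Fin (n + 1), {(⟨n, fun x => x i⟩ : Op A)} := rfl
  have hLs : ∀ k, L (k + 1) = step (L k) := fun k => rfl
  have hLc : ∀ k, (L k).Countable := by
    intro k
    induction k with
    | zero =>
      rw [hL0]
      exact hS.union (countable_iUnion fun n => countable_iUnion fun i => countable_singleton _)
    | succ k ih => rw [hLs]; exact hstep _ ih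
  have hLmono : Monotone L := monotone_nat_of_le_succ fun k => by
    rw [hLs]; exact subset_union_left
  have hclone : IsClone (⋃ k, L k) := by
    refine ⟨fun n i => mem_iUnion.2 ⟨0, ?_⟩, ?_⟩
    · rw [hL0]
      exact Or.inr (mem_iUnion.2 ⟨n, mem_iUnion.2 ⟨i, rfl⟩⟩)
    · intro n m f g hf hg
      obtain ⟨i₀, hi₀⟩ := mem_iUnion.1 hf
      choose k hk using fun i => mem_iUnion.1 (hg i)
      obtain ⟨M, hM⟩ := (Set.finite_range k).bddAbove
      refine mem_iUnion.2 ⟨max i₀ M + 1, ?_⟩
      rw [hLs]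
      refine Or.inr (mem_iUnion.2 ⟨n, mem_iUnion.2 ⟨m, ⟨(f, g), ⟨?_, ?_⟩, rfl⟩⟩⟩)
      · exact hLmono (le_max_left _ _) hi₀
      · intro i _
        exact hLmono ((hM ⟨i, rfl⟩).trans (le_max_right _ _)) (hk i)
  refine (countable_iUnion hLc).mono (cloneGen_subset hclone ?_)
  exact fun x hx => mem_iUnion.2 ⟨0, by rw [hL0]; exact Or.inl hx⟩

theorem not_finGen_of_uncountable [Countable A] {C : Set (Op A)} (h : ¬ C.Countable) :
    ¬ FinGen C := by
  rintro ⟨S, hS, rfl⟩
  exact h (countable_cloneGen hS.countable)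

/-- A clone that is not finitely generated is the union of a chain of proper subclones of some
length, so that its cofinality is defined. -/
theorem exists_hasChain {C : Set (Op A)} (hC : IsClone C) (hfg : ¬ FinGen C) :
    ∃ κ, HasChain C κ := by
  classical
  -- the least cardinality of a generating set
  let T : Set Cardinal.{0} := {κ | ∃ S : Set (Op A), #S = κ ∧ C = cloneGen S}
  have hT : T.Nonempty := ⟨#C, C, rfl,
    Subset.antisymm (subset_cloneGen C) (cloneGen_subset hC Subset.rfl)⟩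
  obtain ⟨S, hScard, hSgen⟩ := csInf_mem hT
  set κ := sInf T with hκ
  have hinf : ℵ₀ ≤ κ := by
    by_contra hlt
    rw [not_le, ← hScard, Cardinal.lt_aleph0_iff_set_finite] at hlt
    exact hfg ⟨S, hlt, hSgen⟩
  have hcard : #(κ.ord.ToType) = #S := by rw [Cardinal.mk_ord_toType, hScard]
  obtain ⟨e⟩ := Cardinal.eq.1 hcard
  have hsmall : ∀ i : κ.ord.ToType, #(Set.Iio i) < κ := by
    intro i
    have := Cardinal.mk_Iio_toType_ord_lt i
    exact this
  haveI : NoMaxOrder κ.ord.ToType := Cardinal.noMaxOrder hinf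
  haveI : Nonempty κ.ord.ToType := by
    rw [← Cardinal.mk_ne_zero_iff, Cardinal.mk_ord_toType]
    exact (Cardinal.aleph0_pos.trans_le hinf).ne'
  let G : κ.ord.ToType → Set (Op A) := fun i => cloneGen ((fun j => (e j : Op A)) '' Set.Iio i)
  have hGmono : Monotone G := fun i j hij =>
    cloneGen_mono (image_mono (Set.Iio_subset_Iio hij))
  have hSC : S ⊆ C := by rw [hSgen]; exact subset_cloneGen S
  have hGsub : ∀ i, G i ⊆ C := fun i => cloneGen_subset hC (by
    rintro _ ⟨j, _, rfl⟩; exact hSC (e j).2)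
  refine ⟨κ, G, hGmono, fun i => ⟨isClone_cloneGen _, ?_⟩, ?_⟩
  · refine (hGsub i).ssubset_of_ne fun heq => ?_
    have hmem : #((fun j => (e j : Op A)) '' Set.Iio i) ∈ T := ⟨_, rfl, heq.symm⟩
    have h1 : κ ≤ #((fun j => (e j : Op A)) '' Set.Iio i) := csInf_le' hmem
    exact absurd (h1.trans Cardinal.mk_image_le) (not_le.2 (hsmall i))
  · apply Subset.antisymm (iUnion_subset hGsub)
    have hcl : IsClone (⋃ i, G i) := isClone_iUnion G hGmono fun i => isClone_cloneGen _
    conv_lhs => rw [hSgen]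
    refine cloneGen_subset hcl fun s hs => ?_
    obtain ⟨i, hi⟩ := exists_gt (e.symm ⟨s, hs⟩)
    refine mem_iUnion.2 ⟨i, subset_cloneGen _ ⟨e.symm ⟨s, hs⟩, hi, ?_⟩⟩
    simp

/-- If every countable family of operations of a clone lies in a finitely generated subclone,
then the clone is not the union of a chain of at most countable length. -/
theorem not_hasChain_of_le_aleph0 {C : Set (Op A)} (hC : IsClone C)
    (h : ∀ F : ℕ → Op A, (∀ i, F i ∈ C) → ∃ H : Set (Op A), H.Finite ∧ H ⊆ C ∧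
      ∀ i, F i ∈ cloneGen H) {κ : Cardinal.{0}} (hκ : κ ≤ ℵ₀) : ¬ HasChain C κ := by
  classical
  rintro ⟨G, hmono, hG, hU⟩
  have hcount : Countable κ.ord.ToType := by
    rw [← Cardinal.mk_le_aleph0_iff, Cardinal.mk_ord_toType]; exact hκ
  have hne : Nonempty κ.ord.ToType := by
    by_contra hempty
    rw [not_nonempty_iff] at hempty
    have : (⟨0, fun x => x 0⟩ : Op A) ∈ ⋃ i, G i := by rw [hU]; exact hC.proj 0 0
    obtain ⟨i, _⟩ := mem_iUnion.1 this
    exact hempty.false i
  obtain ⟨e, he⟩ := exists_surjective_nat κ.ord.ToType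
  have hex : ∀ i, ∃ f, f ∈ C ∧ f ∉ G i := fun i => exists_of_ssubset (hG i).2
  choose F hFC hFG using hex
  obtain ⟨H, hHfin, hHC, hH⟩ := h (fun n => F (e n)) (fun n => hFC _)
  have hHG : ∀ x ∈ H, ∃ i, x ∈ G i := fun x hx => by
    have : x ∈ ⋃ i, G i := by rw [hU]; exact hHC hx
    exact mem_iUnion.1 this
  have : ∃ i, H ⊆ G i := by
    haveI := hHfin.to_subtype
    choose k hk using fun x : H => hHG x x.2
    obtain ⟨M, hM⟩ := (Set.finite_range k).bddAbove
    exact ⟨M, fun x hx => hmono (hM ⟨⟨x, hx⟩, rfl⟩) (hk ⟨x, hx⟩)⟩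
  obtain ⟨i, hi⟩ := this
  obtain ⟨n, rfl⟩ := he i
  exact hFG (e n) (cloneGen_subset (hG _).1 hi (hH n))

/-- The main criterion. -/
theorem aleph0_lt_cofinality {C : Set (Op A)} (hC : IsClone C) (hfg : ¬ FinGen C)
    (h : ∀ F : ℕ → Op A, (∀ i, F i ∈ C) → ∃ H : Set (Op A), H.Finite ∧ H ⊆ C ∧
      ∀ i, F i ∈ cloneGen H) : ℵ₀ < cofinality C := by
  obtain ⟨κ, hκ⟩ := exists_hasChain hC hfg
  have hmem : cofinality C ∈ {κ | HasChain C κ} := csInf_mem ⟨κ, hκ⟩
  by_contra hle
  exact not_hasChain_of_le_aleph0 hC h (not_lt.1 hle) hmem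

end Pool.MP_18f3df_al
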