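import Mathlib

/-!
# Clones, polymorphism clones, cofinality, and rational Urysohn spaces: definitions
-/

namespace Pool.MP_18f3df_al

open Cardinal Set

/-- Finitary operations of arity `n + 1 ≥ 1` on `A`. -/
abbrev Op (A : Type) : Type := Σ n : ℕ, (Fin (n + 1) → A) → A

/-- `C` is a clone on `A`: it contains all projections and is closed under composition. -/
structure IsClone {A : Type} (C : Set (Op A)) : Prop where
  proj : ∀ (n : ℕ) (i : Fin (n + 1)), (⟨n, fun x => x i⟩ : Op A) ∈ C
  comp : ∀ (n m : ℕ) (f : (Fin (n + 1) → A) → A) (g : Fin (n + 1) → (Fin (m + 1) → A) → A),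
    (⟨n, f⟩ : Op A) ∈ C → (∀ i, (⟨m, g i⟩ : Op A) ∈ C) →
      (⟨m, fun x => f (fun i => g i x)⟩ : Op A) ∈ C

/-- The polymorphism clone of the relational structure `(A, (R r)_{r : ι})` with binary
relations: all operations of arity at least one that preserve every relation `R r`. -/
def Pol {A ι : Type} (R : ι → A → A → Prop) : Set (Op A) :=
  {f | ∀ r, ∀ x y : Fin (f.1 + 1) → A, (∀ i, R r (x i) (y i)) → R r (f.2 x) (f.2 y)}

/-- The clone generated by a set of operations. -/
def cloneGen {A : Type} (S : Set (Op A)) : Set (Op A) :=
  ⋂₀ {C | IsClone C ∧ S ⊆ C}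

/-- `C` is a finitely generated clone. -/
def FinGen {A : Type} (C : Set (Op A)) : Prop :=
  ∃ S : Set (Op A), S.Finite ∧ C = cloneGen S

/-- `C` is the union of an increasing chain of proper subclones indexed by the ordinals
below (the initial ordinal of) the cardinal `κ`. -/
def HasChain {A : Type} (C : Set (Op A)) (κ : Cardinal.{0}) : Prop :=
  ∃ G : κ.ord.ToType → Set (Op A), Monotone G ∧ (∀ i, IsClone (G i) ∧ G i ⊂ C) ∧ ⋃ i, G i = C

/-- The cofinality of a clone: the least cardinal `κ` such that the clone is the union of an
increasing chain of length `κ` of proper subclones. -/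
noncomputable def cofinality {A : Type} (C : Set (Op A)) : Cardinal.{0} :=
  sInf {κ | HasChain C κ}

/-- `U` is a Urysohn space for the set `D` of distances: `U` is a countable metric space with
distances in `D`, every isometry between finite subsets of `U` extends to an isometry of `U`
onto itself (homogeneity), and every finite metric space with distances in `D` embeds into `U`
isometrically (universality). -/
structure IsUrysohn (D : Set ℝ) (U : Type) [MetricSpace U] : Prop where
  countable : Countable U
  dist_mem : ∀ x y : U, dist x y ∈ D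
  homogeneous : ∀ (S : Finset U) (f : S → U), (∀ x y : S, dist (f x) (f y) = dist (x : U) y) →
    ∃ h : U ≃ᵢ U, ∀ x : S, h x = f x
  universal : ∀ (F : Type) [Finite F] [MetricSpace F], (∀ x y : F, dist x y ∈ D) →
    ∃ g : F → U, Isometry g

/-- The distances of the rational Urysohn space. -/
def ratDist : Set ℝ := Set.range ((↑) : ℚ → ℝ)

/-- The distances of the rational Urysohn sphere. -/
def ratDist01 : Set ℝ := ((↑) : ℚ → ℝ) '' Set.Icc 0 1

end Pool.MP_18f3df_al
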