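import Pool.Agent.MP_18f3df_al.Ury

/-!
# Uncountable cofinality of the polymorphism clones of the rational Urysohn space and sphere
-/

namespace Pool.MP_18f3df_al

open Set Finset Cardinal

variable {D : Set ℝ} {cap : ℝ → ℝ} {U : Type} [MetricSpace U]

/-- Nonexpansive self-maps. -/
def NE (f : U → U) : Prop := ∀ x y, dist (f x) (f y) ≤ dist x y

theorem cap_zero (hU : IsUrysohn D U) (hD : CapData D cap) : cap 0 = 0 :=
  hD.cap_of_mem _ (zero_mem hU hD)

/-- A `1`-Lipschitz path on `ℕ` through a given sequence of points. -/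
theorem exists_path (hU : IsUrysohn D U) (hD : CapData D cap) (a : ℕ → U) :
    ∃ (N : ℕ → ℕ) (c : ℕ → U), Function.Injective N ∧ (∀ i, c (N i) = a i) ∧
      ∀ n m : ℕ, dist (c n) (c m) ≤ |(n : ℝ) - m| := by
  classical
  let ℓ : ℕ → ℕ := fun k => ⌈dist (a k) (a (k + 1))⌉₊ + 1
  let N : ℕ → ℕ := fun i => ∑ k ∈ Finset.range i, ℓ k
  have hNs : ∀ i, N (i + 1) = N i + ℓ i := fun i => Finset.sum_range_succ _ _
  have hmono : StrictMono N := strictMono_nat_of_lt_succ fun i => by
    rw [hNs]; simp only [ℓ]; omega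
  have hNi : ∀ i, i ≤ N i := fun i => hmono.id_le i
  have hd : ∀ i k, i ≤ k → dist (a i) (a k) ≤ (N k : ℝ) - N i := by
    intro i k hik
    induction k, hik using Nat.le_induction with
    | base => simp
    | succ k hk ih =>
      have h1 := dist_triangle (a i) (a k) (a (k + 1))
      have h2 : dist (a k) (a (k + 1)) ≤ (ℓ k : ℝ) := by
        simp only [ℓ]
        push_cast
        have := Nat.le_ceil (dist (a k) (a (k + 1)))
        linarith
      rw [hNs]
      push_cast
      linarith
  have hd' : ∀ i k, dist (a i) (a k) ≤ |(N i : ℝ) - N k| := by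
    intro i k
    rcases le_total i k with h | h
    · rw [abs_sub_comm]
      exact (hd i k h).trans (le_abs_self _)
    · rw [dist_comm]
      exact (hd k i h).trans (le_abs_self _)
  have hρD : ∀ n m : ℕ, cap |(n : ℝ) - m| ∈ D := fun n m => by
    have := hD.rat_mem |(n : ℚ) - m| (abs_nonneg _)
    push_cast at this
    exact this
  obtain ⟨c, hc1, hc2⟩ := exists_ext hU hD (Y := ℕ) (ι := ℕ) (fun n m => cap |(n : ℝ) - m|)
    hρD (fun n => by simp [cap_zero hU hD]) (fun n m => by rw [abs_sub_comm])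
    (fun x y z => (hD.mono (abs_sub_le _ _ _)).trans (hD.subadd _ _ (abs_nonneg _) (abs_nonneg _)))
    N a (fun i k => by
      rw [← hD.cap_of_mem _ (hU.dist_mem (a i) (a k))]
      exact hD.mono (hd' i k))
    (fun n => by
      refine ⟨Finset.range (n + 1), fun i => ?_⟩
      by_cases hi : i ≤ n
      · refine ⟨i, Finset.mem_range.2 (by omega), ?_⟩
        rw [sub_self, abs_zero, cap_zero hU hD, add_zero, hD.cap_of_mem _ (hρD _ _)]
      · push Not at hi
        refine ⟨n, Finset.mem_range.2 (by omega), hD.mono ?_⟩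
        have h1 : (n : ℝ) ≤ N n := by exact_mod_cast hNi n
        have h2 : (N n : ℝ) ≤ N i := by exact_mod_cast hmono.monotone hi.le
        have h3 := hD.cap_le |(n : ℝ) - N n|
        have h4 := hD.cap_le |(N n : ℝ) - N i|
        rw [abs_of_nonpos (by linarith)] at h3
        rw [abs_of_nonpos (by linarith)] at h4
        rw [abs_of_nonpos (by linarith : (n : ℝ) - N n ≤ 0),
          abs_of_nonpos (by linarith : (N n : ℝ) - N i ≤ 0),
          abs_of_nonpos (by linarith : (n : ℝ) - N i ≤ 0)]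
        linarith)
  exact ⟨N, c, hmono.injective, hc1, fun n m => (hc2 n m).trans (hD.cap_le _)⟩

/-- The wedge metric on `ℕ × U`. -/
noncomputable def wedge (o : U) (p q : ℕ × U) : ℝ :=
  if p.1 = q.1 then dist p.2 q.2 else dist p.2 o + |(p.1 : ℝ) - q.1| + dist o q.2

theorem wedge_nonneg (o : U) (p q : ℕ × U) : 0 ≤ wedge o p q := by
  unfold wedge
  split_ifs <;> positivity

theorem wedge_self (o : U) (p : ℕ × U) : wedge o p p = 0 := by simp [wedge]

theorem wedge_comm (o : U) (p q : ℕ × U) : wedge o p q = wedge o q p := by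
  unfold wedge
  by_cases h : p.1 = q.1
  · simp [h, dist_comm]
  · rw [if_neg h, if_neg (Ne.symm h), dist_comm p.2 o, dist_comm o q.2, abs_sub_comm]
    ring

theorem wedge_triangle (o : U) (p q r : ℕ × U) : wedge o p r ≤ wedge o p q + wedge o q r := by
  unfold wedge
  have t1 := dist_triangle p.2 q.2 r.2
  have t2 := dist_triangle p.2 o r.2
  have t3 := dist_triangle p.2 q.2 o
  have t4 := dist_triangle o q.2 r.2
  have t5 := abs_sub_le (p.1 : ℝ) q.1 r.1
  have t6 : 0 ≤ dist q.2 o := dist_nonneg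
  have t7 : 0 ≤ dist o q.2 := dist_nonneg
  have t8 : 0 ≤ |(p.1 : ℝ) - q.1| := abs_nonneg _
  have t9 : 0 ≤ |(q.1 : ℝ) - r.1| := abs_nonneg _
  by_cases h1 : p.1 = q.1 <;> by_cases h2 : q.1 = r.1
  · rw [if_pos h1, if_pos h2, if_pos (h1.trans h2)]; exact t1
  · have h3 : p.1 ≠ r.1 := fun h => h2 (h1 ▸ h)
    rw [if_pos h1, if_neg h2, if_neg h3, h1]
    linarith
  · have h3 : p.1 ≠ r.1 := fun h => h1 (h2 ▸ h)
    rw [if_neg h1, if_pos h2, if_neg h3, ← h2]
    linarith
  · by_cases h3 : p.1 = r.1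
    · rw [if_neg h1, if_neg h2, if_pos h3]; linarith
    · rw [if_neg h1, if_neg h2, if_neg h3]; linarith

theorem wedge_rat (hU : IsUrysohn D U) (hD : CapData D cap) (o : U) (p q : ℕ × U) :
    cap (wedge o p q) ∈ D := by
  have : ∃ s : ℚ, wedge o p q = s := by
    unfold wedge
    split_ifs
    · exact hD.rat _ (hU.dist_mem _ _)
    · obtain ⟨a, ha⟩ := hD.rat _ (hU.dist_mem p.2 o)
      obtain ⟨b, hb⟩ := hD.rat _ (hU.dist_mem o q.2)
      refine ⟨a + |(p.1 : ℚ) - q.1| + b, ?_⟩
      rw [ha, hb]; push_cast; rfl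
  obtain ⟨s, hs⟩ := this
  have h0 : (0 : ℝ) ≤ s := hs ▸ wedge_nonneg o p q
  rw [hs]
  exact hD.rat_mem s (by exact_mod_cast h0)

/-- Every countable family of nonexpansive self-maps of `U` is contained in a subsemigroup
generated by three nonexpansive self-maps. -/
theorem sierpinski_end (hU : IsUrysohn D U) (hD : CapData D cap) (f : ℕ → U → U)
    (hf : ∀ i, NE (f i)) :
    ∃ F σ e : U → U, NE F ∧ NE σ ∧ NE e ∧ ∃ N : ℕ → ℕ, ∀ i x, f i x = F (σ^[N i] (e x)) := by
  classical
  haveI := hU.countable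
  haveI := hU.nonempty hD
  obtain ⟨o⟩ := hU.nonempty hD
  obtain ⟨N, c, hN, hc1, hc2⟩ := exists_path hU hD (fun i => f i o)
  obtain ⟨j, hj, hjext⟩ := exists_good hU hD (X := ℕ × U) (fun p q => cap (wedge o p q))
    (wedge_rat hU hD o) (fun p => by rw [wedge_self, cap_zero hU hD])
    (fun p q => by rw [wedge_comm])
    (fun p q r => (hD.mono (wedge_triangle o p q r)).trans
      (hD.subadd _ _ (wedge_nonneg _ _ _) (wedge_nonneg _ _ _)))
  -- the shift
  obtain ⟨σ, hσ1, hσ2⟩ := hjext (fun p => j (p.1 + 1, p.2)) (fun p q => by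
    rw [hj]
    apply le_of_eq
    congr 1
    simp [wedge])
  -- the embedding of the zeroth copy
  let e : U → U := fun x => j (0, x)
  have he : NE e := fun x y => by
    simp only [e]
    rw [hj]
    refine (hD.cap_le _).trans ?_
    simp [wedge]
  -- the map `F`
  let Fn : ℕ → U → U := fun n x => if h : ∃ i, N i = n then f (Classical.choose h) x else c n
  have hFn : ∀ n, NE (Fn n) := by
    intro n x y
    by_cases h : ∃ i, N i = n
    · simp only [Fn, dif_pos h]; exact hf _ x y
    · simp only [Fn, dif_neg h, dist_self]; exact dist_nonneg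
  have hFo : ∀ n, Fn n o = c n := by
    intro n
    by_cases h : ∃ i, N i = n
    · simp only [Fn, dif_pos h]
      rw [← hc1, Classical.choose_spec h]
    · simp only [Fn, dif_neg h]
  have hFN : ∀ i, Fn (N i) = f i := by
    intro i
    have h : ∃ k, N k = N i := ⟨i, rfl⟩
    funext x
    simp only [Fn, dif_pos h]
    rw [hN (Classical.choose_spec h)]
  obtain ⟨F, hF1, hF2⟩ := hjext (fun p => Fn p.1 p.2) (fun p q => by
    rw [← hD.cap_of_mem _ (hU.dist_mem (Fn p.1 p.2) (Fn q.1 q.2))]
    refine hD.mono ?_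
    unfold wedge
    split_ifs with h
    · rw [h]; exact hFn _ _ _
    · have e1 := hFn p.1 p.2 o
      have e2 := hFn q.1 o q.2
      have e3 := hc2 p.1 q.1
      rw [hFo] at e1 e2
      have e4 := dist_triangle4 (Fn p.1 p.2) (c p.1) (c q.1) (Fn q.1 q.2)
      linarith)
  refine ⟨F, σ, e, hF2, hσ2, he, N, fun i x => ?_⟩
  have hit : ∀ k, σ^[k] (e x) = j (k, x) := by
    intro k
    induction k with
    | zero => rfl
    | succ k ih => rw [Function.iterate_succ_apply', ih, hσ1]
  rw [hit, hF1, hFN]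

/-- A nonexpansive pairing function with nonexpansive projections. -/
theorem exists_pairing (hU : IsUrysohn D U) (hD : CapData D cap) :
    ∃ (b : U → U → U) (p₁ p₂ : U → U),
      (∀ x y x' y', dist (b x y) (b x' y') = max (dist x x') (dist y y')) ∧
      NE p₁ ∧ NE p₂ ∧ (∀ x y, p₁ (b x y) = x) ∧ (∀ x y, p₂ (b x y) = y) := by
  classical
  haveI := hU.countable
  haveI := hU.nonempty hD
  obtain ⟨j, hj, hjext⟩ := exists_good hU hD (X := U × U)
    (fun p q => max (dist p.1 q.1) (dist p.2 q.2))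
    (fun p q => by
      rcases max_choice (dist p.1 q.1) (dist p.2 q.2) with h | h <;> rw [h] <;>
        exact hU.dist_mem _ _)
    (fun p => by simp) (fun p q => by rw [dist_comm, dist_comm q.2])
    (fun p q r => by
      apply max_le
      · exact (dist_triangle _ q.1 _).trans (add_le_add (le_max_left _ _) (le_max_left _ _))
      · exact (dist_triangle _ q.2 _).trans (add_le_add (le_max_right _ _) (le_max_right _ _)))
  obtain ⟨p₁, h11, h12⟩ := hjext (fun p => p.1) (fun p q => le_max_left _ _)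
  obtain ⟨p₂, h21, h22⟩ := hjext (fun p => p.2) (fun p q => le_max_right _ _)
  exact ⟨fun x y => j (x, y), p₁, p₂, fun x y x' y' => hj _ _, h12, h22,
    fun x y => h11 (x, y), fun x y => h21 (x, y)⟩

/-- Encoding of tuples by a pairing function. -/
def enc (b : U → U → U) : (n : ℕ) → (Fin (n + 1) → U) → U
  | 0, x => x 0
  | n + 1, x => b (x 0) (enc b n (fun i => x i.succ))

/-- Decoding of tuples. -/
def dec (p₁ p₂ : U → U) : (n : ℕ) → Fin (n + 1) → U → U
  | 0, _, v => v
  | n + 1, i, v => Fin.cases (p₁ v) (fun k => dec p₁ p₂ n k (p₂ v)) i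

theorem dec_enc (b : U → U → U) (p₁ p₂ : U → U) (h1 : ∀ x y, p₁ (b x y) = x)
    (h2 : ∀ x y, p₂ (b x y) = y) : ∀ (n : ℕ) (i : Fin (n + 1)) (x : Fin (n + 1) → U),
    dec p₁ p₂ n i (enc b n x) = x i
  | 0, i, x => by
    have : i = 0 := Fin.ext (by omega)
    subst this; rfl
  | n + 1, i, x => by
    refine Fin.cases ?_ (fun k => ?_) i
    · simp [dec, enc, h1]
    · simp only [dec, enc, Fin.cases_succ, h2]
      exact dec_enc b p₁ p₂ h1 h2 n k (fun i => x i.succ)

theorem ne_dec (p₁ p₂ : U → U) (h1 : NE p₁) (h2 : NE p₂) :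
    ∀ (n : ℕ) (i : Fin (n + 1)), NE (dec p₁ p₂ n i)
  | 0, i => fun x y => le_rfl
  | n + 1, i => by
    refine Fin.cases ?_ (fun k => ?_) i
    · intro x y; simpa [dec] using h1 x y
    · intro x y
      simp only [dec, Fin.cases_succ]
      exact (ne_dec p₁ p₂ h1 h2 n k _ _).trans (h2 x y)

theorem enc_mem {C : Set (Op U)} (hC : IsClone C) (b : U → U → U)
    (hb : (⟨1, fun x => b (x 0) (x 1)⟩ : Op U) ∈ C) :
    ∀ n, (⟨n, enc b n⟩ : Op U) ∈ C
  | 0 => hC.proj 0 0
  | n + 1 => by
    have ih := enc_mem hC b hb n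
    have h1 : (⟨n + 1, fun x => enc b n (fun i => x i.succ)⟩ : Op U) ∈ C :=
      hC.comp n (n + 1) (enc b n) (fun i x => x i.succ) ih (fun i => hC.proj (n + 1) i.succ)
    have h2 := hC.comp 1 (n + 1) (fun y => b (y 0) (y 1))
      ![fun x => x 0, fun x => enc b n (fun i => x i.succ)] hb (by
        intro i
        fin_cases i
        · exact hC.proj (n + 1) 0
        · exact h1)
    exact h2

/-- The polymorphism clone of a metric space, for the relations `dist x y ≤ q`, `q` rational. -/
abbrev PolM (U : Type) [MetricSpace U] : Set (Op U) :=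
  Pol (fun (q : ℚ) (x y : U) => dist x y ≤ q)

theorem mem_polM_iff (hrat : ∀ x y : U, ∃ q : ℚ, dist x y = q) (f : Op U) :
    f ∈ PolM U ↔ ∀ x y : Fin (f.1 + 1) → U, ∃ i, dist (f.2 x) (f.2 y) ≤ dist (x i) (y i) := by
  constructor
  · intro h x y
    obtain ⟨i, _, hi⟩ := Finset.exists_max_image Finset.univ (fun i => dist (x i) (y i))
      ⟨0, Finset.mem_univ _⟩
    obtain ⟨q, hq⟩ := hrat (x i) (y i)
    refine ⟨i, ?_⟩
    rw [hq]
    refine h q x y (fun k => ?_)
    have := hi k (Finset.mem_univ k)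
    rw [hq] at this
    exact this
  · intro h q x y hxy
    obtain ⟨i, hi⟩ := h x y
    exact hi.trans (hxy i)

theorem unary_mem {f : U → U} (hf : NE f) : (⟨0, fun x => f (x 0)⟩ : Op U) ∈ PolM U :=
  fun _ x y h => (hf (x 0) (y 0)).trans (h 0)

theorem unary_comp_mem {C : Set (Op U)} (hC : IsClone C) {g : U → U} {n : ℕ}
    {h : (Fin (n + 1) → U) → U} (hg : (⟨0, fun x => g (x 0)⟩ : Op U) ∈ C)
    (hh : (⟨n, h⟩ : Op U) ∈ C) : (⟨n, fun x => g (h x)⟩ : Op U) ∈ C :=
  hC.comp 0 n (fun y => g (y 0)) (fun _ => h) hg (fun _ => hh)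

theorem iterate_mem {C : Set (Op U)} (hC : IsClone C) {g : U → U} {n : ℕ}
    {h : (Fin (n + 1) → U) → U} (hg : (⟨0, fun x => g (x 0)⟩ : Op U) ∈ C)
    (hh : (⟨n, h⟩ : Op U) ∈ C) : ∀ k, (⟨n, fun x => g^[k] (h x)⟩ : Op U) ∈ C
  | 0 => hh
  | k + 1 => by
    have h1 := unary_comp_mem hC hg (iterate_mem hC hg hh k)
    have h2 : (fun x => g^[k + 1] (h x)) = fun x => g (g^[k] (h x)) := by
      funext x; rw [Function.iterate_succ_apply']
    rw [h2]; exact h1

/-- Every countable family of polymorphisms lies in a finitely generated subclone. -/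
theorem sierpinski_pol (hU : IsUrysohn D U) (hD : CapData D cap) (F : ℕ → Op U)
    (hF : ∀ i, F i ∈ PolM U) :
    ∃ H : Set (Op U), H.Finite ∧ H ⊆ PolM U ∧ ∀ i, F i ∈ cloneGen H := by
  classical
  have hrat : ∀ x y : U, ∃ q : ℚ, dist x y = q := fun x y => hD.rat _ (hU.dist_mem x y)
  obtain ⟨b, p₁, p₂, hb, hp1, hp2, h1, h2⟩ := exists_pairing hU hD
  -- unary coding of the given polymorphisms
  let g : ℕ → U → U := fun i v => (F i).2 (fun k => dec p₁ p₂ (F i).1 k v)
  have hg : ∀ i, NE (g i) := by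
    intro i x y
    obtain ⟨k, hk⟩ := (mem_polM_iff hrat (F i)).1 (hF i)
      (fun k => dec p₁ p₂ (F i).1 k x) (fun k => dec p₁ p₂ (F i).1 k y)
    exact hk.trans (ne_dec p₁ p₂ hp1 hp2 _ k x y)
  obtain ⟨G, σ, e, hG, hσ, he, N, hN⟩ := sierpinski_end hU hD g hg
  let H : Set (Op U) := {⟨0, fun x => G (x 0)⟩, ⟨0, fun x => σ (x 0)⟩, ⟨0, fun x => e (x 0)⟩,
    ⟨1, fun x => b (x 0) (x 1)⟩}
  refine ⟨H, by simp [H], ?_, fun i => ?_⟩
  · rintro _ (rfl | rfl | rfl | rfl)
    · exact unary_mem hG
    · exact unary_mem hσ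
    · exact unary_mem he
    · intro q x y hxy
      show dist (b (x 0) (x 1)) (b (y 0) (y 1)) ≤ q
      rw [hb]
      exact max_le (hxy 0) (hxy 1)
  · have hC := isClone_cloneGen H
    have mG : (⟨0, fun x => G (x 0)⟩ : Op U) ∈ cloneGen H := subset_cloneGen H (by simp [H])
    have mσ : (⟨0, fun x => σ (x 0)⟩ : Op U) ∈ cloneGen H := subset_cloneGen H (by simp [H])
    have me : (⟨0, fun x => e (x 0)⟩ : Op U) ∈ cloneGen H := subset_cloneGen H (by simp [H])
    have mb : (⟨1, fun x => b (x 0) (x 1)⟩ : Op U) ∈ cloneGen H :=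
      subset_cloneGen H (by simp [H])
    have m1 := enc_mem hC b mb (F i).1
    have m2 := unary_comp_mem hC mG (iterate_mem hC mσ (unary_comp_mem hC me m1) (N i))
    have heq : F i = ⟨(F i).1, fun x => G (σ^[N i] (e (enc b (F i).1 x)))⟩ := by
      have : (F i).2 = fun x => G (σ^[N i] (e (enc b (F i).1 x))) := by
        funext x
        rw [← hN]
        simp only [g]
        have : (fun k => dec p₁ p₂ (F i).1 k (enc b (F i).1 x)) = x := by
          funext k
          rw [dec_enc b p₁ p₂ h1 h2]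
        rw [this]
      rw [← this]
    rw [heq]
    exact m2

theorem not_countable_pol (hU : IsUrysohn D U) (hD : CapData D cap) :
    ¬ (PolM U).Countable := by
  classical
  intro hcount
  haveI := hU.countable
  have h0 := zero_mem hU hD
  obtain ⟨j, hj, hjext⟩ := exists_good hU hD (X := ℕ) (fun n m => if n = m then (0 : ℝ) else 1)
    (fun n m => by split_ifs; exacts [h0, hD.one_mem]) (fun n => by simp)
    (fun n m => by simp [eq_comm])
    (fun x y z => by
      by_cases h1 : x = y <;> by_cases h2 : y = z <;> by_cases h3 : x = z <;>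
        simp_all)
  have hj01 : j 0 ≠ j 1 := by
    intro h
    have := hj 0 1
    rw [h] at this
    simp at this
  have hd : ∀ n m, dist (j n) (j m) ≤ 1 := fun n m => by
    rw [hj]; split_ifs <;> norm_num
  choose G hG1 hG2 using fun ε : ℕ → Bool =>
    hjext (fun n => if ε n then j 0 else j 1) (fun n m => by
      by_cases h : n = m
      · subst h; simp
      · rw [if_neg h]; split_ifs <;> exact hd _ _)
  let Φ : (ℕ → Bool) → PolM U := fun ε => ⟨⟨0, fun x => G ε (x 0)⟩, unary_mem (hG2 ε)⟩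
  have hinj : Function.Injective Φ := by
    intro ε ε' h
    have h1 : (fun x : Fin (0 + 1) → U => G ε (x 0)) = fun x => G ε' (x 0) := by
      have := congrArg Subtype.val h
      simpa [Φ] using this
    funext n
    have h2 := congrFun h1 (fun _ => j n)
    simp only [hG1] at h2
    by_cases e1 : ε n = true <;> by_cases e2 : ε' n = true
    · rw [e1, e2]
    · rw [if_pos e1, if_neg e2] at h2; exact absurd h2 hj01
    · rw [if_neg e1, if_pos e2] at h2; exact absurd h2.symm hj01
    · rw [Bool.not_eq_true] at e1 e2; rw [e1, e2]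
  haveI : Countable (PolM U) := hcount.to_subtype
  have : Countable (ℕ → Bool) := hinj.countable
  rw [← Cardinal.mk_le_aleph0_iff] at this
  have h3 : #(ℕ → Bool) = 2 ^ ℵ₀ := by simp
  rw [h3] at this
  exact absurd this (not_le.2 (Cardinal.cantor ℵ₀))

/-- General main theorem. -/
theorem main (hU : IsUrysohn D U) (hD : CapData D cap) :
    ¬ FinGen (PolM U) ∧ ℵ₀ < cofinality (PolM U) := by
  haveI := hU.countable
  have h1 := not_finGen_of_uncountable (not_countable_pol hU hD)
  exact ⟨h1, aleph0_lt_cofinality (isClone_pol _) h1 (sierpinski_pol hU hD)⟩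

theorem capData_rat : CapData ratDist id where
  mono := monotone_id
  cap_le := fun _ => le_rfl
  cap_of_mem := fun _ _ => rfl
  subadd := fun _ _ _ _ => le_rfl
  add_cap := fun _ _ _ _ => le_rfl
  rat_mem := fun q _ => ⟨q, rfl⟩
  rat := fun a ⟨q, hq⟩ => ⟨q, hq.symm⟩
  one_mem := ⟨1, by simp⟩

theorem capData_rat01 : CapData ratDist01 (fun r => min r 1) where
  mono := fun a b h => min_le_min_right 1 h
  cap_le := fun r => min_le_left r 1
  cap_of_mem := by
    rintro _ ⟨q, hq, rfl⟩
    exact min_eq_left (by exact_mod_cast hq.2)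
  subadd := by
    intro a b ha hb
    rcases le_total a 1 with h1 | h1 <;> rcases le_total b 1 with h2 | h2
    · simp only [min_eq_left h1, min_eq_left h2]; exact min_le_left _ _
    · simp only [min_eq_left h1, min_eq_right h2]; exact (min_le_right _ _).trans (by linarith)
    · simp only [min_eq_right h1, min_eq_left h2]; exact (min_le_right _ _).trans (by linarith)
    · simp only [min_eq_right h1, min_eq_right h2]; exact (min_le_right _ _).trans (by linarith)
  add_cap := by
    intro a b ha hb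
    rcases le_total b 1 with h2 | h2
    · simp only [min_eq_left h2]; exact le_rfl
    · simp only [min_eq_right h2]
      exact (min_le_right _ _).trans (le_min (by linarith) le_rfl)
  rat_mem := by
    intro q hq
    refine ⟨min q 1, ⟨le_min hq zero_le_one, min_le_right _ _⟩, ?_⟩
    push_cast; rfl
  rat := fun a ⟨q, _, hq⟩ => ⟨q, hq.symm⟩
  one_mem := ⟨1, by simp, by simp⟩

end Pool.MP_18f3df_al
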