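import Pool.Agent.MP_18f3df_al.QRam
import Pool.Agent.MP_18f3df_al.Clone

/-!
# Configurations: finite sets of points with a monotone function, and the tame operations
-/

set_option autoImplicit false

namespace Pool.MP_18f3df_al.Qle

open Finset

/-- A finite configuration in `ℕ^n` with distinct coordinates and a monotone function `t`. -/
structure Cfg (n : ℕ) where
  ι : Type
  fin : Fintype ι
  x : ι → Fin n → ℕ
  t : ι → ℕ
  inj : ∀ i p q, x p i = x q i → p = q
  mono : ∀ p q, (∀ i, x p i < x q i) → t p ≤ t q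

/-- `e` is a copy of `Z` inside `X`. -/
def Emb {n : ℕ} (Z X : Cfg n) (e : Z.ι → X.ι) : Prop :=
  (∀ i p q, Z.x p i < Z.x q i → X.x (e p) i < X.x (e q) i) ∧
    ∀ p q, Z.t p < Z.t q → X.t (e p) < X.t (e q)

theorem Emb.id {n : ℕ} (Z : Cfg n) : Emb Z Z (fun p => p) := ⟨fun _ _ _ h => h, fun _ _ h => h⟩

theorem Emb.comp {n : ℕ} {Z Y X : Cfg n} {e : Z.ι → Y.ι} {e' : Y.ι → X.ι} (h : Emb Z Y e)
    (h' : Emb Y X e') : Emb Z X (fun p => e' (e p)) :=
  ⟨fun i p q hpq => h'.1 i _ _ (h.1 i p q hpq), fun p q hpq => h'.2 _ _ (h.2 p q hpq)⟩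

theorem Emb.le {n : ℕ} {Z X : Cfg n} {e : Z.ι → X.ι} (h : Emb Z X e) (i : Fin n) (p q : Z.ι)
    (hpq : Z.x p i ≤ Z.x q i) : X.x (e p) i ≤ X.x (e q) i := by
  rcases hpq.lt_or_eq with h1 | h1
  · exact (h.1 i p q h1).le
  · rw [Z.inj i p q h1]

/-- `v` is constant on `X` or ordered as one coordinate. -/
def Can {n : ℕ} (X : Cfg n) (v : X.ι → ℚ) : Prop :=
  (∀ p q, v p = v q) ∨ ∃ j, ∀ p q, X.x p j < X.x q j → v p < v q

theorem Can.comp {n : ℕ} {Z X : Cfg n} {v : X.ι → ℚ} (hv : Can X v) {e : Z.ι → X.ι}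
    (h : Emb Z X e) : Can Z (fun p => v (e p)) := by
  rcases hv with hv | ⟨j, hj⟩
  · exact Or.inl fun p q => hv _ _
  · exact Or.inr ⟨j, fun p q hpq => hj _ _ (h.1 j p q hpq)⟩

/-- The tame operations. -/
def Tame (n : ℕ) (h : Op ℚ) : Prop :=
  ∀ Z : Cfg n, ∃ X : Cfg n, ∀ v : Fin (h.1 + 1) → X.ι → ℚ, (∀ i, Can X (v i)) →
    ∃ e : Z.ι → X.ι, Emb Z X e ∧ Can Z (fun p => h.2 (fun i => v i (e p)))

theorem isClone_tame (n : ℕ) : IsClone {h : Op ℚ | Tame n h} where
  proj := fun m i Z => ⟨Z, fun v hv => ⟨fun p => p, Emb.id Z, hv i⟩⟩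
  comp := by
    intro k m f g hf hg Z
    obtain ⟨X0, hX0⟩ := hf Z
    -- treat the inner operations one after the other
    have step : ∀ l : ℕ, ∃ X : Cfg n, ∀ v : Fin (m + 1) → X.ι → ℚ, (∀ i, Can X (v i)) →
        ∃ e : X0.ι → X.ι, Emb X0 X e ∧
          ∀ i : Fin (k + 1), (i : ℕ) < l → Can X0 (fun p => g i (fun j => v j (e p))) := by
      intro l
      induction l with
      | zero =>
        exact ⟨X0, fun v _ => ⟨fun p => p, Emb.id X0, fun i hi => absurd hi (Nat.not_lt_zero _)⟩⟩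
      | succ l ih =>
        obtain ⟨X, hX⟩ := ih
        by_cases hl : l < k + 1
        · obtain ⟨Y, hY⟩ := hg ⟨l, hl⟩ X
          refine ⟨Y, fun v hv => ?_⟩
          obtain ⟨e, he, hce⟩ := hY v hv
          obtain ⟨e', he', hce'⟩ := hX (fun i p => v i (e p)) (fun i => (hv i).comp he)
          refine ⟨fun p => e (e' p), he'.comp he, fun i hi => ?_⟩
          rcases Nat.lt_succ_iff_lt_or_eq.1 hi with h1 | h1
          · exact hce' i h1
          · have h2 : i = ⟨l, hl⟩ := Fin.ext h1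
            rw [h2]
            exact hce.comp he'
        · refine ⟨X, fun v hv => ?_⟩
          obtain ⟨e', he', hce'⟩ := hX v hv
          exact ⟨e', he', fun i hi => hce' i (by have := i.2; omega)⟩
    obtain ⟨X, hX⟩ := step (k + 1)
    refine ⟨X, fun v hv => ?_⟩
    obtain ⟨e, he, hce⟩ := hX v hv
    obtain ⟨e', he', hce'⟩ := hX0 (fun i p => g i (fun j => v j (e p))) (fun i => hce i i.2)
    exact ⟨fun p => e (e' p), he'.comp he, hce'⟩

/-- Extension of a monotone function from finitely many points. -/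
theorem extend {ι : Type} [Fintype ι] {m : ℕ} (y : ι → Fin m → ℕ) (w : ι → ℚ)
    (hw : ∀ p q, (∀ i, y p i ≤ y q i) → w p ≤ w q) :
    ∃ G : (Fin m → ℕ) → WithBot ℚ, Monotone G ∧ ∀ p, G (y p) = (w p : WithBot ℚ) := by
  classical
  refine ⟨fun u => (univ.filter (fun p => ∀ i, y p i ≤ u i)).sup (fun p => (w p : WithBot ℚ)),
    ?_, ?_⟩
  · intro u u' huu
    refine Finset.sup_mono fun p hp => ?_
    rw [mem_filter] at hp ⊢
    exact ⟨hp.1, fun i => (hp.2 i).trans (huu i)⟩
  · intro p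
    refine le_antisymm (Finset.sup_le fun q hq => ?_) ?_
    · rw [mem_filter] at hq
      exact WithBot.coe_le_coe.2 (hw q p hq.2)
    · exact Finset.le_sup (f := fun p => (w p : WithBot ℚ))
        (mem_filter.2 ⟨mem_univ _, fun i => le_rfl⟩)

/-- The key lemma: a function which is monotone in all coordinates but one is canonical on a copy
of `Z`. -/
theorem key {m : ℕ} (j0 : Fin (m + 1)) (Z : Cfg (m + 1)) : ∃ X : Cfg (m + 1), ∀ w : X.ι → ℚ,
    (∀ p q, (∀ i, X.x p (j0.succAbove i) ≤ X.x q (j0.succAbove i)) → w p ≤ w q) →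
      ∃ e : Z.ι → X.ι, Emb Z X e ∧ Can Z (fun p => w (e p)) := by
  classical
  let _ := Z.fin
  -- a bound for all numbers in `Z`
  obtain ⟨R, hRx, hRt⟩ : ∃ R : ℕ, (∀ p i, Z.x p i < R) ∧ ∀ p, Z.t p < R := by
    obtain ⟨A, hA⟩ := (Set.finite_range fun a : Z.ι × Fin (m + 1) => Z.x a.1 a.2).bddAbove
    obtain ⟨B, hB⟩ := (Set.finite_range Z.t).bddAbove
    refine ⟨max A B + 1, fun p i => ?_, fun p => ?_⟩
    · exact Nat.lt_succ_of_le ((hA ⟨(p, i), rfl⟩).trans (le_max_left _ _))
    · exact Nat.lt_succ_of_le ((hB ⟨p, rfl⟩).trans (le_max_right _ _))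
  obtain ⟨N, hN⟩ := canon (L := WithBot ℚ) m (2 * R)
  -- the blocks
  let Bl : Type := {H : Fin m → Fin R → Fin N // ∀ i, StrictMono (H i)}
  let β : ℕ := Fintype.card Bl
  let num : Bl → ℕ := fun H => (Fintype.equivFin Bl H : Fin β)
  have hnum : ∀ H, num H < β := fun H => (Fintype.equivFin Bl H).2
  have hnumi : ∀ H H', num H = num H' → H = H' := fun H H' h =>
    (Fintype.equivFin Bl).injective (Fin.ext h)
  have lex : ∀ a b c d : ℕ, b < β → d < β → a * β + b ≤ c * β + d → a < c ∨ (a = c ∧ b ≤ d) := by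
    intro a b c d hb hd h
    rcases lt_trichotomy a c with h1 | h1 | h1
    · exact Or.inl h1
    · subst h1; exact Or.inr ⟨rfl, by omega⟩
    · exfalso
      have : (c + 1) * β ≤ a * β := Nat.mul_le_mul_right _ h1
      rw [Nat.add_mul] at this
      omega
  have lex' : ∀ a b c d : ℕ, b < R → d < R → a * R + b ≤ c * R + d → a < c ∨ (a = c ∧ b ≤ d) := by
    intro a b c d hb hd h
    rcases lt_trichotomy a c with h1 | h1 | h1
    · exact Or.inl h1
    · subst h1; exact Or.inr ⟨rfl, by omega⟩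
    · exfalso
      have : (c + 1) * R ≤ a * R := Nat.mul_le_mul_right _ h1
      rw [Nat.add_mul] at this
      omega
  let X : Cfg (m + 1) :=
    { ι := Bl × Z.ι
      fin := inferInstance
      x := fun P => j0.insertNth (num P.1 * R + Z.x P.2 j0)
        (fun i => (P.1.1 i ⟨Z.x P.2 (j0.succAbove i), hRx _ _⟩ : ℕ) * β + num P.1)
      t := fun P => num P.1 * R + Z.t P.2
      inj := by
        intro i P Q h
        rcases Fin.eq_self_or_eq_succAbove j0 i with rfl | ⟨i, rfl⟩
        · simp only [Fin.insertNth_apply_same] at h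
          rcases lex' _ _ _ _ (hRx P.2 i) (hRx Q.2 i) h.le with h1 | ⟨h1, h2⟩
          · rcases lex' _ _ _ _ (hRx Q.2 i) (hRx P.2 i) h.ge with h3 | ⟨h3, _⟩
            · exact absurd h1 (not_lt.2 h3.le)
            · exact absurd h1 (not_lt.2 h3.le)
          · rw [h1] at h
            exact Prod.ext (hnumi _ _ h1) (Z.inj i _ _ (by omega))
        · simp only [Fin.insertNth_apply_succAbove] at h
          rcases lex _ _ _ _ (hnum P.1) (hnum Q.1) h.le with h1 | ⟨h1, h2⟩
          · rcases lex _ _ _ _ (hnum Q.1) (hnum P.1) h.ge with h3 | ⟨h3, _⟩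
            · exact absurd h1 (not_lt.2 h3.le)
            · exact absurd h1 (not_lt.2 h3.le)
          · rw [h1] at h
            have h3 : P.1 = Q.1 := hnumi _ _ (by omega)
            rw [h3] at h1
            have h4 := (Q.1.2 i).injective (Fin.ext h1)
            have h5 : Z.x P.2 (j0.succAbove i) = Z.x Q.2 (j0.succAbove i) := by
              simpa using h4
            exact Prod.ext h3 (Z.inj _ _ _ h5)
      mono := by
        intro P Q h
        have h0 := h j0
        simp only [Fin.insertNth_apply_same] at h0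
        rcases lex' _ _ _ _ (hRx P.2 j0) (hRx Q.2 j0) h0.le with h1 | ⟨h1, _⟩
        · have h2 : (num P.1 + 1) * R ≤ num Q.1 * R := Nat.mul_le_mul_right _ h1
          rw [Nat.add_mul] at h2
          have := hRt P.2
          omega
        · have h3 : P.1 = Q.1 := hnumi _ _ h1
          rw [h1] at h0
          have h4 : Z.t P.2 ≤ Z.t Q.2 := by
            refine Z.mono _ _ fun i => ?_
            rcases Fin.eq_self_or_eq_succAbove j0 i with rfl | ⟨i, rfl⟩
            · omega
            · have h5 := h (j0.succAbove i)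
              simp only [Fin.insertNth_apply_succAbove] at h5
              rw [h3] at h5
              have h6 := Nat.lt_of_mul_lt_mul_right (a := β) (Nat.lt_of_add_lt_add_right h5)
              have h7 := (Q.1.2 i).lt_iff_lt.1 (Fin.lt_def.2 h6)
              simpa using h7
          rw [h1]
          omega }
  have hxj : ∀ (H : Bl) (p : Z.ι), X.x (H, p) j0 = num H * R + Z.x p j0 := fun H p => by
    simp [X]
  have hxs : ∀ (H : Bl) (p : Z.ι) (i : Fin m), X.x (H, p) (j0.succAbove i) =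
      (H.1 i ⟨Z.x p (j0.succAbove i), hRx _ _⟩ : ℕ) * β + num H := fun H p i => by
    simp [X]
  refine ⟨X, fun w hw => ?_⟩
  let _ := X.fin
  obtain ⟨G, hG, hGw⟩ := extend (fun (P : X.ι) (i : Fin m) => X.x P (j0.succAbove i)) w hw
  obtain ⟨H', Hmono, Hlt, hcan⟩ := hN (fun a => G (fun i => a i * β)) (fun a b hab =>
    hG fun i => Nat.mul_le_mul_right _ (hab i))
  have hH0 : ∀ i (a : Fin R), H' i (2 * a) < N := fun i a => Hlt i _ (by have := a.2; omega)
  let H : Bl := ⟨fun i a => ⟨H' i (2 * a), hH0 i a⟩, fun i a b hab => by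
    refine Fin.lt_def.2 ?_
    exact Hmono i _ _ (by have := Fin.lt_def.1 hab; omega) (by have := b.2; omega)⟩
  have hxs' : ∀ (p : Z.ι) (i : Fin m), X.x (H, p) (j0.succAbove i) =
      H' i (2 * Z.x p (j0.succAbove i)) * β + num H := fun p i => hxs H p i
  refine ⟨fun p => (H, p), ⟨?_, ?_⟩, ?_⟩
  · intro i p q hpq
    rcases Fin.eq_self_or_eq_succAbove j0 i with rfl | ⟨i, rfl⟩
    · rw [hxj, hxj]
      omega
    · rw [hxs', hxs']
      have h1 : H' i (2 * Z.x p (j0.succAbove i)) < H' i (2 * Z.x q (j0.succAbove i)) :=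
        Hmono i _ _ (by omega) (by have := hRx q (j0.succAbove i); omega)
      have h2 := Nat.mul_le_mul_right β h1
      have h3 := hnum H
      rw [Nat.succ_mul] at h2
      omega
  · intro p q hpq
    show num H * R + Z.t p < num H * R + Z.t q
    omega
  · -- the sandwich
    have hlow : ∀ p : Z.ι, G (fun i => H' i (2 * Z.x p (j0.succAbove i)) * β) ≤
        ((w (H, p) : ℚ) : WithBot ℚ) := by
      intro p
      rw [← hGw]
      refine hG fun i => ?_
      show _ ≤ X.x (H, p) (j0.succAbove i)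
      rw [hxs']
      omega
    have hupp : ∀ p : Z.ι, ((w (H, p) : ℚ) : WithBot ℚ) ≤
        G (fun i => H' i (2 * Z.x p (j0.succAbove i) + 1) * β) := by
      intro p
      rw [← hGw]
      refine hG fun i => ?_
      show X.x (H, p) (j0.succAbove i) ≤ _
      rw [hxs']
      have h1 : H' i (2 * Z.x p (j0.succAbove i)) < H' i (2 * Z.x p (j0.succAbove i) + 1) :=
        Hmono i _ _ (by omega) (by have := hRx p (j0.succAbove i); omega)
      have h2 := Nat.mul_le_mul_right β h1
      have h3 := hnum H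
      rw [Nat.succ_mul] at h2
      omega
    rcases hcan with hcan | ⟨j, hj⟩
    · left
      have h1 : ∀ p q : Z.ι, w (H, p) ≤ w (H, q) := by
        intro p q
        refine WithBot.coe_le_coe.1 ((hupp p).trans (le_of_eq_of_le ?_ (hlow q)))
        exact hcan (fun i => 2 * Z.x p (j0.succAbove i) + 1)
          (fun i => 2 * Z.x q (j0.succAbove i))
          (fun i => by have := hRx p (j0.succAbove i); omega)
          (fun i => by have := hRx q (j0.succAbove i); omega)
      exact fun p q => le_antisymm (h1 p q) (h1 q p)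
    · right
      refine ⟨j0.succAbove j, fun p q hpq => ?_⟩
      refine WithBot.coe_lt_coe.1 ((hupp p).trans_lt (lt_of_lt_of_le ?_ (hlow q)))
      exact hj (fun i => 2 * Z.x p (j0.succAbove i) + 1)
        (fun i => 2 * Z.x q (j0.succAbove i))
        (fun i => by have := hRx p (j0.succAbove i); omega)
        (fun i => by have := hRx q (j0.succAbove i); omega) (by
          show 2 * Z.x p (j0.succAbove j) + 1 < 2 * Z.x q (j0.succAbove j)
          omega)

/-- The same for all coordinates at once. -/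
theorem key_all {m : ℕ} (Z : Cfg (m + 1)) : ∃ X : Cfg (m + 1), ∀ (j0 : Fin (m + 1)) (w : X.ι → ℚ),
    (∀ p q, (∀ i, X.x p (j0.succAbove i) ≤ X.x q (j0.succAbove i)) → w p ≤ w q) →
      ∃ e : Z.ι → X.ι, Emb Z X e ∧ Can Z (fun p => w (e p)) := by
  have step : ∀ l : ℕ, ∃ X : Cfg (m + 1), (∃ e : Z.ι → X.ι, Emb Z X e) ∧
      ∀ (j0 : Fin (m + 1)) (w : X.ι → ℚ), (j0 : ℕ) < l →
      (∀ p q, (∀ i, X.x p (j0.succAbove i) ≤ X.x q (j0.succAbove i)) → w p ≤ w q) →
        ∃ e : Z.ι → X.ι, Emb Z X e ∧ Can Z (fun p => w (e p)) := by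
    intro l
    induction l with
    | zero =>
      exact ⟨Z, ⟨fun p => p, Emb.id Z⟩, fun j0 w h => absurd h (Nat.not_lt_zero _)⟩
    | succ l ih =>
      obtain ⟨X, ⟨e0, he0⟩, hX⟩ := ih
      by_cases hl : l < m + 1
      · obtain ⟨Y, hY⟩ := key ⟨l, hl⟩ X
        obtain ⟨e1, he1, -⟩ := hY (fun _ => 0) (fun _ _ _ => le_rfl)
        refine ⟨Y, ⟨fun p => e1 (e0 p), he0.comp he1⟩, fun j0 w hj0 hw => ?_⟩
        rcases Nat.lt_succ_iff_lt_or_eq.1 hj0 with h1 | h1
        · obtain ⟨e, he, hce⟩ := hX j0 (fun p => w (e1 p)) h1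
            (fun p q hpq => hw _ _ fun i => he1.le _ _ _ (hpq i))
          exact ⟨fun p => e1 (e p), he.comp he1, hce⟩
        · have h2 : j0 = ⟨l, hl⟩ := Fin.ext h1
          subst h2
          obtain ⟨e, he, hce⟩ := hY w hw
          exact ⟨fun p => e (e0 p), he0.comp he, hce.comp he0⟩
      · exact ⟨X, ⟨e0, he0⟩, fun j0 w hj0 hw => hX j0 w (by have := j0.2; omega) hw⟩
  obtain ⟨X, -, hX⟩ := step (m + 1)
  exact ⟨X, fun j0 w hw => hX j0 w j0.2 hw⟩

/-- Monotone operations of arity at most `m` are tame in dimension `m + 1`. -/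
theorem tame_of_arity {m : ℕ} (h : Op ℚ) (hm : h.1 < m)
    (hmono : ∀ x y : Fin (h.1 + 1) → ℚ, (∀ i, x i ≤ y i) → h.2 x ≤ h.2 y) :
    Tame (m + 1) h := by
  classical
  intro Z
  obtain ⟨X, hX⟩ := key_all Z
  refine ⟨X, fun v hv => ?_⟩
  -- the coordinate used by the `i`-th argument
  have hc : ∀ i, ∃ j : Fin (m + 1), ∀ p q, X.x p j ≤ X.x q j → v i p ≤ v i q := by
    intro i
    rcases hv i with h1 | ⟨j, hj⟩
    · exact ⟨0, fun p q _ => (h1 p q).le⟩
    · refine ⟨j, fun p q hpq => ?_⟩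
      rcases hpq.lt_or_eq with h2 | h2
      · exact (hj p q h2).le
      · rw [X.inj j p q h2]
  choose j hj using hc
  obtain ⟨j0, hj0⟩ : ∃ j0 : Fin (m + 1), ∀ i, j i ≠ j0 := by
    by_contra hcon
    push Not at hcon
    have hsurj : Function.Surjective j := hcon
    have := Fintype.card_le_of_surjective j hsurj
    simp only [Fintype.card_fin] at this
    omega
  refine hX j0 (fun p => h.2 (fun i => v i p)) (fun p q hpq => hmono _ _ fun i => ?_)
  obtain ⟨i', hi'⟩ := Fin.exists_succAbove_eq (hj0 i)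
  refine hj i p q ?_
  rw [← hi']
  exact hpq i'

end Pool.MP_18f3df_al.Qle
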