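import Mathlib

/-!
# Canonical subgrids for monotone functions on grids
-/

set_option autoImplicit false

namespace Pool.MP_18f3df_al.Qle

open Finset

/-- End-homogeneous sets. -/
theorem endhom {κ : Type} [Fintype κ] (L : ℕ) : ∃ N : ℕ, ∀ (c : ℕ → ℕ → κ) (A : Finset ℕ),
    N ≤ A.card → ∃ B ⊆ A, B.card = L ∧ ∃ d : ℕ → κ, ∀ a ∈ B, ∀ b ∈ B, a < b → c a b = d a := by
  classical
  induction L with
  | zero =>
    exact ⟨0, fun c A _ => ⟨∅, empty_subset _, rfl, fun a => c a a, by simp⟩⟩
  | succ L ih =>
    obtain ⟨N, hN⟩ := ih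
    refine ⟨Fintype.card κ * N + 2, fun c A hA => ?_⟩
    have hne : A.Nonempty := card_pos.1 (by omega)
    set a0 := A.min' hne with ha0
    have ha0A : a0 ∈ A := A.min'_mem hne
    have hlt : ∀ b ∈ A.erase a0, a0 < b := fun b hb =>
      lt_of_le_of_ne (A.min'_le b (mem_of_mem_erase hb)) (ne_of_mem_erase hb).symm
    have hcard : (univ : Finset κ).card * N < (A.erase a0).card := by
      rw [card_univ, card_erase_of_mem ha0A]
      omega
    obtain ⟨y, _, hy⟩ := exists_lt_card_fiber_of_mul_lt_card_of_maps_to
      (f := fun b => c a0 b) (fun b _ => mem_univ _) hcard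
    obtain ⟨B, hB, hBc, d, hd⟩ := hN c _ hy.le
    have hBA : ∀ b ∈ B, b ∈ A.erase a0 ∧ c a0 b = y := fun b hb => by
      simpa [mem_filter] using hB hb
    have hnot : a0 ∉ B := fun h => by
      have := (hBA a0 h).1
      simp at this
    refine ⟨insert a0 B, ?_, ?_, Function.update d a0 y, ?_⟩
    · intro b hb
      rcases mem_insert.1 hb with rfl | hb
      · exact ha0A
      · exact mem_of_mem_erase (hBA b hb).1
    · rw [card_insert_of_notMem hnot, hBc]
    · intro a ha b hb hab
      rcases mem_insert.1 ha with rfl | ha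
      · rcases mem_insert.1 hb with rfl | hb
        · exact absurd hab (lt_irrefl _)
        · rw [Function.update_self]
          exact (hBA b hb).2
      · have hane : a ≠ a0 := fun h => hnot (h ▸ ha)
        rw [Function.update_of_ne hane]
        rcases mem_insert.1 hb with rfl | hb
        · exact absurd hab (not_lt.2 (hlt a (hBA a ha).1).le)
        · exact hd a ha b hb hab

/-- Ramsey's theorem for pairs. -/
theorem ramsey2 {κ : Type} [Fintype κ] (M : ℕ) : ∃ N : ℕ, ∀ c : ℕ → ℕ → κ, ∃ h : ℕ → ℕ,
    (∀ a b, a < b → b < M → h a < h b) ∧ (∀ a, a < M → h a < N) ∧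
      ∃ c0, ∀ a b, a < b → b < M → c (h a) (h b) = c0 := by
  classical
  obtain ⟨N, hN⟩ := endhom (κ := κ) (Fintype.card κ * M + 1)
  refine ⟨N, fun c => ?_⟩
  obtain ⟨B, hB, hBc, d, hd⟩ := hN c (range N) (by simp)
  have hcard : (univ : Finset κ).card * M < B.card := by
    rw [card_univ, hBc]
    omega
  obtain ⟨y, _, hy⟩ := exists_lt_card_fiber_of_mul_lt_card_of_maps_to
    (f := d) (fun b _ => mem_univ _) hcard
  set C := B.filter (fun b => d b = y) with hC
  have hCB : ∀ b ∈ C, b ∈ B ∧ d b = y := fun b hb => by simpa [hC, mem_filter] using hb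
  set h : ℕ → ℕ := fun a => if ha : a < C.card then C.orderEmbOfFin rfl ⟨a, ha⟩ else 0 with hh
  have hval : ∀ a (ha : a < M), h a = C.orderEmbOfFin rfl ⟨a, ha.trans hy⟩ := fun a ha => by
    simp only [hh]
    rw [dif_pos (ha.trans hy)]
  have hmem : ∀ a, a < M → h a ∈ C := fun a ha => by
    rw [hval a ha]
    exact orderEmbOfFin_mem _ _ _
  have hmono : ∀ a b, a < b → b < M → h a < h b := fun a b hab hb => by
    rw [hval a (hab.trans hb), hval b hb]
    exact (C.orderEmbOfFin rfl).strictMono hab
  refine ⟨h, hmono, fun a ha => ?_, y, fun a b hab hb => ?_⟩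
  · exact mem_range.1 (hB (hCB _ (hmem a ha)).1)
  · rw [hd _ (hCB _ (hmem a (hab.trans hb))).1 _ (hCB _ (hmem b hb)).1 (hmono a b hab hb)]
    exact (hCB _ (hmem a (hab.trans hb))).2

/-- The product Ramsey theorem for pairs. -/
theorem prodRamsey (m : ℕ) : ∀ {κ : Type} [Fintype κ] (M : ℕ), ∃ N : ℕ,
    ∀ c : (Fin m → ℕ) → (Fin m → ℕ) → κ, ∃ H : Fin m → ℕ → ℕ,
      (∀ i a b, a < b → b < M → H i a < H i b) ∧ (∀ i a, a < M → H i a < N) ∧
        ∃ c0, ∀ a b : Fin m → ℕ, (∀ i, a i < b i ∧ b i < M) →
          c (fun i => H i (a i)) (fun i => H i (b i)) = c0 := by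
  classical
  induction m with
  | zero =>
    intro κ _ M
    refine ⟨0, fun c => ⟨fun i => i.elim0, fun i => i.elim0, fun i => i.elim0,
      c (fun i => i.elim0) (fun i => i.elim0), fun a b _ => ?_⟩⟩
    congr 1 <;> (funext i; exact i.elim0)
  | succ m ih =>
    intro κ _ M
    obtain ⟨N1, hN1⟩ := ih (κ := κ) M
    obtain ⟨N2, hN2⟩ := ramsey2 (κ := (Fin m → Fin N1) → (Fin m → Fin N1) → κ) M
    refine ⟨max N1 N2, fun c => ?_⟩
    obtain ⟨h, hmono, hlt, c0', hc0'⟩ := hN2 (fun a b p q =>
      c (Fin.cons a (fun i => (p i : ℕ))) (Fin.cons b (fun i => (q i : ℕ))))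
    obtain ⟨H, Hmono, Hlt, c0, hc0⟩ := hN1 (fun p q =>
      if hpq : (∀ i, p i < N1) ∧ (∀ i, q i < N1) then
        c0' (fun i => ⟨p i, hpq.1 i⟩) (fun i => ⟨q i, hpq.2 i⟩) else c (fun _ => 0) (fun _ => 0))
    refine ⟨Fin.cons h H, ?_, ?_, c0, ?_⟩
    · intro i
      refine Fin.cases ?_ (fun i => ?_) i
      · simpa using hmono
      · simpa using Hmono i
    · intro i
      refine Fin.cases ?_ (fun i => ?_) i
      · intro a ha
        simpa using Or.inr (hlt a ha)
      · intro a ha
        simpa using Or.inl (Hlt i a ha)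
    · intro a b hab
      have h1 := hc0 (fun i => a i.succ) (fun i => b i.succ) (fun i => hab i.succ)
      have hp : (∀ i, H i (a (Fin.succ i)) < N1) ∧ (∀ i, H i (b (Fin.succ i)) < N1) :=
        ⟨fun i => Hlt i _ ((hab i.succ).1.trans (hab i.succ).2), fun i => Hlt i _ (hab i.succ).2⟩
      rw [dif_pos hp] at h1
      have h2 := hc0' (a 0) (b 0) (hab 0).1 (hab 0).2
      have h3 := congrFun (congrFun h2 (fun i => ⟨_, hp.1 i⟩)) (fun i => ⟨_, hp.2 i⟩)
      rw [h1] at h3
      rw [← h3]
      congr 1
      · funext i
        refine Fin.cases ?_ (fun i => ?_) i <;> simp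
      · funext i
        refine Fin.cases ?_ (fun i => ?_) i <;> simp

/-- Monotone functions on large grids are constant or governed by one coordinate on a large
subgrid. -/
theorem canon {L : Type} [LinearOrder L] (m M : ℕ) : ∃ N : ℕ, ∀ G : (Fin m → ℕ) → L,
    Monotone G → ∃ H : Fin m → ℕ → ℕ, (∀ i a b, a < b → b < M → H i a < H i b) ∧
      (∀ i a, a < M → H i a < N) ∧
      ((∀ a b : Fin m → ℕ, (∀ i, a i < M) → (∀ i, b i < M) →
          G (fun i => H i (a i)) = G (fun i => H i (b i))) ∨
        ∃ j, ∀ a b : Fin m → ℕ, (∀ i, a i < M) → (∀ i, b i < M) → a j < b j →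
          G (fun i => H i (a i)) < G (fun i => H i (b i))) := by
  classical
  obtain ⟨N, hN⟩ := prodRamsey m (κ := Finset (Fin m) → Bool × Bool) (M + 3)
  refine ⟨N, fun G hG => ?_⟩
  obtain ⟨H, Hmono, Hlt, c0, hc0⟩ := hN (fun a b T =>
    (decide (G (fun i => if i ∈ T then a i else b i) < G (fun i => if i ∈ T then b i else a i)),
     decide (G (fun i => if i ∈ T then a i else b i) = G (fun i => if i ∈ T then b i else a i))))
  -- comparison of points with different coordinates
  have key : ∀ (T : Finset (Fin m)) (p q : Fin m → ℕ), (∀ i, p i < M + 3) → (∀ i, q i < M + 3) →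
      (∀ i ∈ T, p i < q i) → (∀ i ∉ T, q i < p i) →
      ((G (fun i => H i (p i)) < G (fun i => H i (q i))) ↔ (c0 T).1 = true) ∧
      ((G (fun i => H i (p i)) = G (fun i => H i (q i))) ↔ (c0 T).2 = true) := by
    intro T p q hp hq hT hT'
    have h1 := hc0 (fun i => min (p i) (q i)) (fun i => max (p i) (q i)) (by
      intro i
      by_cases hi : i ∈ T
      · have := hT i hi
        exact ⟨by simp only [min_eq_left this.le, max_eq_right this.le]; exact this,
          max_lt (hp i) (hq i)⟩
      · have := hT' i hi
        exact ⟨by simp only [min_eq_right this.le, max_eq_left this.le]; exact this,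
          max_lt (hp i) (hq i)⟩)
    have h2 := congrFun h1 T
    have e1 : (fun i => if i ∈ T then H i (min (p i) (q i)) else H i (max (p i) (q i))) =
        fun i => H i (p i) := by
      funext i
      by_cases hi : i ∈ T
      · simp [hi, min_eq_left (hT i hi).le]
      · simp [hi, max_eq_left (hT' i hi).le]
    have e2 : (fun i => if i ∈ T then H i (max (p i) (q i)) else H i (min (p i) (q i))) =
        fun i => H i (q i) := by
      funext i
      by_cases hi : i ∈ T
      · simp [hi, max_eq_right (hT i hi).le]
      · simp [hi, min_eq_right (hT' i hi).le]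
    simp only [e1, e2] at h2
    rw [← h2]
    simp
  by_cases hzero : ∃ T, (c0 T).2 = true
  · obtain ⟨T, hT⟩ := hzero
    refine ⟨fun i a => H i (a + 1), fun i a b hab hb => Hmono i _ _ (by omega) (by omega),
      fun i a ha => Hlt i _ (by omega), Or.inl ?_⟩
    have h1 : ∀ a : Fin m → ℕ, (∀ i, a i < M) → G (fun i => H i (a i + 1)) =
        G (fun i => H i (if i ∈ T then M + 1 else 0)) := by
      intro a ha
      refine (key T (fun i => a i + 1) (fun i => if i ∈ T then M + 1 else 0)
        (fun i => by have := ha i; omega) (fun i => by split_ifs <;> omega) ?_ ?_).2.2 hT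
      · intro i hi
        have := ha i
        simp only [if_pos hi]
        omega
      · intro i hi
        simp only [if_neg hi]
        omega
    intro a b ha hb
    rw [h1 a ha, h1 b hb]
  push Not at hzero
  refine ⟨H, fun i a b hab hb => Hmono i _ _ hab (by omega), fun i a ha => Hlt i _ (by omega),
    Or.inr ?_⟩
  -- the family of types along which `G` increases
  have hcomp : ∀ T : Finset (Fin m), (c0 T).1 = true ∨ (c0 Tᶜ).1 = true := by
    intro T
    have h1 := key T (fun i => if i ∈ T then 0 else 1) (fun i => if i ∈ T then 1 else 0)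
      (fun i => by split_ifs <;> omega) (fun i => by split_ifs <;> omega)
      (fun i hi => by simp [hi]) (fun i hi => by simp [hi])
    have h2 := key Tᶜ (fun i => if i ∈ T then 1 else 0) (fun i => if i ∈ T then 0 else 1)
      (fun i => by split_ifs <;> omega) (fun i => by split_ifs <;> omega)
      (fun i hi => by simp [mem_compl.1 hi]) (fun i hi => by
        have : i ∈ T := by simpa using hi
        simp [this])
    rcases lt_trichotomy (G (fun i => H i (if i ∈ T then 0 else 1)))
      (G (fun i => H i (if i ∈ T then 1 else 0))) with h | h | h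
    · exact Or.inl (h1.1.1 h)
    · exact absurd (h1.2.1 h) (by simpa using hzero T)
    · exact Or.inr (h2.1.1 h)
  have hempty : (c0 ∅).1 ≠ true := by
    intro h
    have h1 := (key ∅ (fun _ => 1) (fun _ => 0) (fun i => by omega) (fun i => by omega)
      (by simp) (by simp)).1.2 h
    refine absurd h1 (not_lt.2 (hG fun i => ?_))
    exact (Hmono i 0 1 (by omega) (by omega)).le
  have hinter : ∀ S T : Finset (Fin m), (c0 S).1 = true → (c0 T).1 = true →
      (c0 (S ∩ T)).1 = true := by
    intro S T hS hT
    have h1 := (key S (fun i => if i ∈ S then (if i ∈ T then 0 else 1) else 2)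
      (fun i => if i ∈ S then (if i ∈ T then 1 else 2) else (if i ∈ T then 0 else 1))
      (fun i => by split_ifs <;> omega) (fun i => by split_ifs <;> omega)
      (fun i hi => by simp only [if_pos hi]; split_ifs <;> omega)
      (fun i hi => by simp only [if_neg hi]; split_ifs <;> omega)).1.2 hS
    have h2 := (key T
      (fun i => if i ∈ S then (if i ∈ T then 1 else 2) else (if i ∈ T then 0 else 1))
      (fun i => if i ∈ S then (if i ∈ T then 2 else 0) else (if i ∈ T then 1 else 0))
      (fun i => by split_ifs <;> omega) (fun i => by split_ifs <;> omega)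
      (fun i hi => by simp only [if_pos hi]; split_ifs <;> omega)
      (fun i hi => by simp only [if_neg hi]; split_ifs <;> omega)).1.2 hT
    refine (key (S ∩ T) (fun i => if i ∈ S then (if i ∈ T then 0 else 1) else 2)
      (fun i => if i ∈ S then (if i ∈ T then 2 else 0) else (if i ∈ T then 1 else 0))
      (fun i => by split_ifs <;> omega) (fun i => by split_ifs <;> omega) ?_ ?_).1.1
      (h1.trans h2)
    · intro i hi
      rw [mem_inter] at hi
      simp [hi.1, hi.2]
    · intro i hi
      rw [mem_inter, not_and_or] at hi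
      by_cases h3 : i ∈ S
      · have h4 : i ∉ T := by tauto
        simp [h3, h4]
      · simp only [if_neg h3]
        split_ifs <;> omega
  have hsing : ∃ j, (c0 {j}).1 = true := by
    by_contra hcon
    push Not at hcon
    have h1 : ∀ U : Finset (Fin m), (c0 Uᶜ).1 = true := by
      intro U
      induction U using Finset.induction_on with
      | empty =>
        rcases hcomp ∅ with h | h
        · exact absurd h hempty
        · exact h
      | insert j U _ ih =>
        have h2 : (c0 {j}ᶜ).1 = true := by
          rcases hcomp {j} with h | h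
          · exact absurd h (hcon j)
          · exact h
        have h3 := hinter _ _ h2 ih
        rw [← compl_union] at h3
        rwa [insert_eq]
    have h2 := h1 univ
    rw [compl_univ] at h2
    exact hempty h2
  obtain ⟨j, hj⟩ := hsing
  refine ⟨j, fun a b ha hb hab => ?_⟩
  have h1 := (key {j} (fun i => if i = j then a j else M + 1) (fun i => if i = j then b j else 0)
    (fun i => by have := ha j; split_ifs <;> omega) (fun i => by have := hb j; split_ifs <;> omega)
    (fun i hi => by rw [mem_singleton] at hi; simp [hi, hab])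
    (fun i hi => by rw [mem_singleton] at hi; simp [hi])).1.2 hj
  refine lt_of_le_of_lt (hG fun i => ?_) (lt_of_lt_of_le h1 (hG fun i => ?_))
  · by_cases hi : i = j
    · subst hi; simp
    · simp only [if_neg hi]
      exact (Hmono i _ _ (by have := ha i; omega) (by omega)).le
  · by_cases hi : i = j
    · subst hi; simp
    · simp only [if_neg hi]
      rcases Nat.eq_zero_or_pos (b i) with h | h
      · rw [h]
      · exact (Hmono i _ _ h (by have := hb i; omega)).le

end Pool.MP_18f3df_al.Qle
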