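import Pool.Agent.MP_18f3df_al.QCfg

/-!
# A universal monotone function and the cofinality of the polymorphism clone of `(ℚ, ≤)`
-/

set_option autoImplicit false

namespace Pool.MP_18f3df_al.Qle

open Finset Cardinal

/-- An increasing map of `ℕ` into `[0, 1)`. -/
def tau (a : ℕ) : ℚ := 1 - 1 / ((a : ℚ) + 1)

theorem tau_nonneg (a : ℕ) : 0 ≤ tau a := by
  have h : (1 : ℚ) / ((a : ℚ) + 1) ≤ 1 := by
    rw [div_le_one (by positivity)]
    have : (0 : ℚ) ≤ a := Nat.cast_nonneg a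
    linarith
  unfold tau
  linarith

theorem tau_lt_one (a : ℕ) : tau a < 1 := by
  have h : (0 : ℚ) < 1 / ((a : ℚ) + 1) := by positivity
  unfold tau
  linarith

theorem tau_strictMono : StrictMono tau := by
  intro a b hab
  unfold tau
  have h1 : (a : ℚ) < b := by exact_mod_cast hab
  have h2 : (1 : ℚ) / ((b : ℚ) + 1) < 1 / ((a : ℚ) + 1) :=
    one_div_lt_one_div_of_lt (by positivity) (by linarith)
  linarith

/-- Universal monotone functions exist. -/
theorem exists_universal (m : ℕ) : ∃ f : (Fin (m + 1) → ℚ) → ℚ, Monotone f ∧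
    ∀ X : Cfg (m + 1), ∃ y : X.ι → Fin (m + 1) → ℚ,
      (∀ i p q, X.x p i < X.x q i → y p i < y q i) ∧
        ∀ p q, X.t p < X.t q → f (y p) < f (y q) := by
  classical
  let V : Type := {D : Finset ((Fin (m + 1) → ℕ) × ℕ) //
    ∀ P ∈ D, ∀ Q ∈ D, (∀ i, P.1 i ≤ Q.1 i) → P.2 ≤ Q.2}
  have : Nonempty V := ⟨⟨∅, by simp⟩⟩
  obtain ⟨d, hd⟩ := exists_surjective_nat V
  let S : (Fin (m + 1) → ℚ) → Finset ℚ := fun u =>
    insert 0 ((range (⌈u 0⌉₊ + 1)).biUnion fun s =>
      ((d s).1.filter (fun P => ∀ i, (s : ℚ) + tau (P.1 i) ≤ u i)).image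
        (fun P => (s : ℚ) + tau P.2))
  have hS : ∀ u v, v ∈ S u ↔ v = 0 ∨ ∃ s : ℕ, ∃ P ∈ (d s).1,
      (∀ i, (s : ℚ) + tau (P.1 i) ≤ u i) ∧ (s : ℚ) + tau P.2 = v := by
    intro u v
    simp only [S, mem_insert, mem_biUnion, mem_range, mem_image, mem_filter]
    constructor
    · rintro (h | ⟨s, _, P, ⟨h1, h2⟩, h3⟩)
      · exact Or.inl h
      · exact Or.inr ⟨s, P, h1, h2, h3⟩
    · rintro (h | ⟨s, P, h1, h2, h3⟩)
      · exact Or.inl h
      · refine Or.inr ⟨s, ?_, P, ⟨h1, h2⟩, h3⟩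
        have h4 : (s : ℚ) ≤ u 0 := le_trans (by linarith [tau_nonneg (P.1 0)]) (h2 0)
        have h5 : s ≤ ⌈u 0⌉₊ := by exact_mod_cast h4.trans (Nat.le_ceil (u 0))
        omega
  have hne : ∀ u, (S u).Nonempty := fun u => ⟨0, (hS u 0).2 (Or.inl rfl)⟩
  have hf : Monotone (fun u => (S u).max' (hne u)) := by
    intro u u' huu
    refine Finset.max'_subset _ fun v hv => ?_
    rw [hS] at hv ⊢
    rcases hv with h | ⟨s, P, h1, h2, h3⟩
    · exact Or.inl h
    · exact Or.inr ⟨s, P, h1, fun i => (h2 i).trans (huu i), h3⟩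
  have hval : ∀ (s : ℕ), ∀ P ∈ (d s).1,
      (S (fun i => (s : ℚ) + tau (P.1 i))).max' (hne _) = (s : ℚ) + tau P.2 := by
    intro s P hP
    refine le_antisymm (Finset.max'_le _ _ _ fun v hv => ?_)
      (Finset.le_max' _ _ ((hS _ _).2 (Or.inr ⟨s, P, hP, fun i => le_rfl, rfl⟩)))
    rcases (hS _ _).1 hv with h | ⟨s', Q, h1, h2, rfl⟩
    · rw [h]
      have := tau_nonneg P.2
      positivity
    · have h3 : (s' : ℚ) < (s : ℚ) + 1 := by
        have h4 := h2 0
        have h5 := tau_nonneg (Q.1 0)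
        have h6 := tau_lt_one (P.1 0)
        linarith
      have h3' : s' < s + 1 := by exact_mod_cast h3
      rcases Nat.lt_or_ge s' s with h7 | h7
      · have h8 : (s' : ℚ) + 1 ≤ s := by exact_mod_cast h7
        have h9 := tau_lt_one Q.2
        have h10 := tau_nonneg P.2
        linarith
      · have h8 : s' = s := by omega
        subst h8
        have h9 := (d s').2 Q h1 P hP (fun i => by
          have h10 := h2 i
          exact tau_strictMono.le_iff_le.1 (by linarith))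
        have h11 := tau_strictMono.monotone h9
        linarith
  refine ⟨fun u => (S u).max' (hne u), hf, fun X => ?_⟩
  let _ := X.fin
  have hvalid : ∀ P ∈ (univ.image fun p => (X.x p, X.t p)),
      ∀ Q ∈ (univ.image fun p => (X.x p, X.t p)), (∀ i, P.1 i ≤ Q.1 i) → P.2 ≤ Q.2 := by
    intro P hP Q hQ h
    obtain ⟨p, _, rfl⟩ := mem_image.1 hP
    obtain ⟨q, _, rfl⟩ := mem_image.1 hQ
    by_cases h1 : ∃ i, X.x p i = X.x q i
    · obtain ⟨i, hi⟩ := h1
      rw [X.inj i p q hi]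
    · push Not at h1
      exact X.mono p q fun i => lt_of_le_of_ne (h i) (h1 i)
  obtain ⟨s, hs⟩ := hd ⟨_, hvalid⟩
  have hmem : ∀ p, (X.x p, X.t p) ∈ (d s).1 := fun p => by
    rw [hs]
    exact mem_image_of_mem _ (mem_univ _)
  refine ⟨fun p i => (s : ℚ) + tau (X.x p i), fun i p q hpq => ?_, fun p q hpq => ?_⟩
  · have := tau_strictMono hpq
    show (s : ℚ) + tau (X.x p i) < (s : ℚ) + tau (X.x q i)
    linarith
  · show (S _).max' _ < (S _).max' _
    rw [hval s _ (hmem p), hval s _ (hmem q)]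
    have := tau_strictMono hpq
    linarith

/-- The base configuration. -/
def base (m : ℕ) (hm : 1 ≤ m) : Cfg (m + 1) where
  ι := Fin 4
  fin := inferInstance
  x := fun p i => if i = 0 then (p : ℕ) else ![1, 0, 3, 2] p
  t := ![0, 1, 3, 2]
  inj := by
    intro i p q
    by_cases hi : i = 0
    · simp only [hi, if_true]
      exact fun h => Fin.ext h
    · simp only [hi, if_false]
      revert p q
      decide
  mono := by
    intro p q h
    have h0 := h 0
    have h1 := h ⟨1, by omega⟩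
    have h2 : (⟨1, by omega⟩ : Fin (m + 1)) ≠ 0 := by
      intro h3
      have := congrArg Fin.val h3
      simp at this
    simp only [if_true, if_neg h2] at h0 h1
    clear h h2
    revert p q
    decide

/-- A universal monotone function of `m + 1 ≥ 2` variables is not tame. -/
theorem not_tame {m : ℕ} (hm : 1 ≤ m) (f : (Fin (m + 1) → ℚ) → ℚ)
    (hf : ∀ X : Cfg (m + 1), ∃ y : X.ι → Fin (m + 1) → ℚ,
      (∀ i p q, X.x p i < X.x q i → y p i < y q i) ∧
        ∀ p q, X.t p < X.t q → f (y p) < f (y q)) : ¬ Tame (m + 1) (⟨m, f⟩ : Op ℚ) := by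
  intro h
  obtain ⟨X, hX⟩ := h (base m hm)
  obtain ⟨y, hy, hyt⟩ := hf X
  obtain ⟨e, he, hce⟩ := hX (fun i p => y p i) (fun i => Or.inr ⟨i, fun p q hpq => hy i p q hpq⟩)
  have ht : ∀ p q : Fin 4, (![0, 1, 3, 2] : Fin 4 → ℕ) p < ![0, 1, 3, 2] q →
      f (fun i => y (e p) i) < f (fun i => y (e q) i) := fun p q hpq => hyt _ _ (he.2 p q hpq)
  rcases hce with hce | ⟨j, hj⟩
  · exact absurd (hce (0 : Fin 4) (1 : Fin 4)) (ht 0 1 (by decide)).ne
  · by_cases h0 : j = 0
    · have h1 := hj (2 : Fin 4) (3 : Fin 4) (by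
        show (if j = 0 then ((2 : Fin 4) : ℕ) else _) < (if j = 0 then ((3 : Fin 4) : ℕ) else _)
        simp [h0])
      exact absurd h1 (not_lt.2 (ht 3 2 (by decide)).le)
    · have h1 := hj (1 : Fin 4) (0 : Fin 4) (by
        show (if j = 0 then _ else (![1, 0, 3, 2] : Fin 4 → ℕ) 1) <
          (if j = 0 then _ else (![1, 0, 3, 2] : Fin 4 → ℕ) 0)
        simp [h0])
      exact absurd h1 (not_lt.2 (ht 0 1 (by decide)).le)

/-- The order of the rationals, as a family of binary relations. -/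
abbrev leQ (_ : Unit) (x y : ℚ) : Prop := x ≤ y

/-- The subclone generated by the operations of arity at most `m`. -/
def F (m : ℕ) : Set (Op ℚ) := cloneGen {h | h ∈ Pol leQ ∧ h.1 < m}

theorem F_mono : Monotone F := fun _ _ h =>
  cloneGen_mono fun _ hx => ⟨hx.1, hx.2.trans_le h⟩

theorem F_subset (m : ℕ) : F m ⊆ Pol leQ :=
  cloneGen_subset (isClone_pol _) fun _ hx => hx.1

theorem F_tame (m : ℕ) : F m ⊆ {h | Tame (m + 1) h} :=
  cloneGen_subset (isClone_tame _) fun h hx => tame_of_arity h hx.2 fun x y hxy => hx.1 () x y hxy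

/-- For every `m ≥ 1` there is an `(m + 1)`-ary monotone operation which is not generated by the
monotone operations of arity at most `m`. -/
theorem exists_not_mem {m : ℕ} (hm : 1 ≤ m) : ∃ f : (Fin (m + 1) → ℚ) → ℚ,
    (⟨m, f⟩ : Op ℚ) ∈ Pol leQ ∧ (⟨m, f⟩ : Op ℚ) ∉ F m := by
  obtain ⟨f, hf, hu⟩ := exists_universal m
  exact ⟨f, fun _ x y hxy => hf hxy, fun h => not_tame hm f hu (F_tame m h)⟩

theorem F_ssubset (m : ℕ) : F m ⊂ Pol leQ := by
  obtain ⟨f, hf, hnf⟩ := exists_not_mem (m := m + 1) (by omega)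
  refine ⟨F_subset m, fun h => hnf (F_mono (Nat.le_succ m) (h hf))⟩

theorem not_finGen : ¬ FinGen (Pol leQ) := by
  rintro ⟨S, hS, hgen⟩
  obtain ⟨m, hm⟩ := (hS.image (fun h : Op ℚ => h.1)).bddAbove
  refine (F_ssubset (m + 1)).2 ?_
  have h1 : S ⊆ Pol leQ := by
    rw [hgen]
    exact subset_cloneGen S
  calc Pol leQ = cloneGen S := hgen
    _ ⊆ F (m + 1) := cloneGen_mono fun h hh =>
      ⟨h1 hh, Nat.lt_succ_of_le (hm ⟨h, hh, rfl⟩)⟩

theorem hasChain_aleph0 : HasChain (Pol leQ) ℵ₀ := by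
  obtain ⟨e⟩ : Nonempty ((· < · : (ℵ₀ : Cardinal.{0}).ord.ToType →
      (ℵ₀ : Cardinal.{0}).ord.ToType → Prop) ≃r (· < · : ℕ → ℕ → Prop)) := by
    rw [← Ordinal.type_eq]
    rw [Ordinal.type_toType, Cardinal.ord_aleph0, Ordinal.type_nat_lt]
  refine ⟨fun i => F (e i), fun i j hij => ?_, fun i => ⟨isClone_cloneGen _, F_ssubset _⟩, ?_⟩
  · rcases hij.lt_or_eq with h | h
    · exact F_mono (e.map_rel_iff.2 h).le
    · rw [h]
  · refine Set.Subset.antisymm (Set.iUnion_subset fun i => F_subset _) fun f hf => ?_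
    refine Set.mem_iUnion.2 ⟨e.symm (f.1 + 1), ?_⟩
    rw [e.apply_symm_apply]
    exact subset_cloneGen _ ⟨hf, Nat.lt_succ_self _⟩

theorem aleph0_le_of_hasChain {A : Type} {C : Set (Op A)} (hne : C.Nonempty)
    {κ : Cardinal.{0}} (h : HasChain C κ) : ℵ₀ ≤ κ := by
  obtain ⟨G, hmono, hG, hU⟩ := h
  by_contra hlt
  rw [not_le] at hlt
  have hfin : Finite κ.ord.ToType := by
    rw [← Cardinal.lt_aleph0_iff_finite, Cardinal.mk_ord_toType]
    exact hlt
  obtain ⟨x, hx⟩ := hne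
  rw [← hU] at hx
  obtain ⟨i, hi⟩ := Set.mem_iUnion.1 hx
  have : Nonempty κ.ord.ToType := ⟨i⟩
  obtain ⟨i0, hi0⟩ := Finite.exists_max (fun i : κ.ord.ToType => i)
  refine (hG i0).2.2 ?_
  calc C = ⋃ i, G i := hU.symm
    _ ⊆ G i0 := Set.iUnion_subset fun i => hmono (hi0 i)

/-- **The cofinality of the polymorphism clone of `(ℚ, ≤)` is `ℵ₀`.** -/
theorem cofinality_eq : cofinality (Pol leQ) = ℵ₀ := by
  refine le_antisymm (csInf_le' hasChain_aleph0)
    (le_csInf ⟨_, hasChain_aleph0⟩ fun κ hκ => aleph0_le_of_hasChain ?_ hκ)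
  exact ⟨_, (isClone_pol leQ).proj 0 0⟩

end Pool.MP_18f3df_al.Qle
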