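import Pool.Agent.MP_18f3df_al.Clone

/-!
# Rational Urysohn spaces: finitely supported embeddings and extension of nonexpansive maps
-/

namespace Pool.MP_18f3df_al

open Set Finset

/-- The technical assumptions on the set `D` of distances and the truncation `cap`. For the
rational Urysohn space `cap = id`, for the rational Urysohn sphere `cap r = min r 1`. -/
structure CapData (D : Set ℝ) (cap : ℝ → ℝ) : Prop where
  mono : Monotone cap
  cap_le : ∀ r, cap r ≤ r
  cap_of_mem : ∀ a ∈ D, cap a = a
  subadd : ∀ a b, 0 ≤ a → 0 ≤ b → cap (a + b) ≤ cap a + cap b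
  add_cap : ∀ a b, 0 ≤ a → 0 ≤ b → cap (a + b) ≤ cap (a + cap b)
  rat_mem : ∀ q : ℚ, 0 ≤ q → cap q ∈ D
  rat : ∀ a ∈ D, ∃ q : ℚ, a = q
  one_mem : (1 : ℝ) ∈ D

/-- A sequence defined by recursion subject to a predicate. -/
noncomputable def seqAux {α : Type} [Nonempty α] (P : ℕ → (ℕ → α) → α → Prop) (n : ℕ) : α :=
  Classical.epsilon (P n (fun i => if _h : i < n then seqAux P i else Classical.arbitrary α))
termination_by n

theorem exists_seq {α : Type} [Nonempty α] (P : ℕ → (ℕ → α) → α → Prop)
    (hloc : ∀ n v v' a, (∀ i < n, v i = v' i) → P n v a → P n v' a)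
    (hstep : ∀ n v, (∀ m < n, P m v (v m)) → ∃ a, P n v a) :
    ∃ w : ℕ → α, ∀ n, P n w (w n) := by
  refine ⟨seqAux P, fun n => ?_⟩
  induction n using Nat.strong_induction_on with
  | _ n ih =>
    have hex : ∃ a, P n (fun i => if _h : i < n then seqAux P i else Classical.arbitrary α) a := by
      refine (hstep n (seqAux P) ih).imp fun a ha => hloc n _ _ a (fun i hi => ?_) ha
      simp [hi]
    have h1 := Classical.epsilon_spec hex
    have h2 : P n (fun i => if _h : i < n then seqAux P i else Classical.arbitrary α)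
        (seqAux P n) := by
      rw [seqAux]; exact h1
    refine hloc n _ _ _ (fun i hi => ?_) h2
    simp [hi]

variable {D : Set ℝ} {cap : ℝ → ℝ} {U : Type} [MetricSpace U]

theorem IsUrysohn.nonempty (hU : IsUrysohn D U) (hD : CapData D cap) : Nonempty U := by
  have h0 : (0 : ℝ) ∈ D := by
    have h1 := hD.rat_mem 0 le_rfl
    have h2 := hD.cap_le 0
    -- `cap 0 = 0`
    obtain ⟨q, hq⟩ := hD.rat _ h1
    have h3 := hD.subadd 0 0 le_rfl le_rfl
    have h4 : cap (0 : ℝ) = 0 := by
      have : cap ((0 : ℝ) + 0) = cap 0 := by rw [add_zero]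
      linarith
    simpa [h4] using h1
  obtain ⟨g, _⟩ := hU.universal PUnit (fun x y => by simpa using h0)
  exact ⟨g PUnit.unit⟩

/-- The one-point extension property. -/
theorem one_point (hU : IsUrysohn D U) (A : Finset U) (φ : U → ℝ)
    (hφ : ∀ a ∈ A, φ a ∈ D) (h0D : (0 : ℝ) ∈ D)
    (h1 : ∀ a ∈ A, ∀ b ∈ A, φ a ≤ φ b + dist a b)
    (h2 : ∀ a ∈ A, ∀ b ∈ A, dist a b ≤ φ a + φ b) : ∃ u : U, ∀ a ∈ A, dist u a = φ a := by
  classical
  have hnn : ∀ a ∈ A, 0 ≤ φ a := fun a ha => by
    have := h2 a ha a ha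
    rw [dist_self] at this
    linarith
  by_cases hz : ∃ a ∈ A, φ a = 0
  · obtain ⟨a, ha, haz⟩ := hz
    refine ⟨a, fun b hb => le_antisymm ?_ ?_⟩
    · have := h2 a ha b hb
      linarith
    · have := h1 b hb a ha
      rw [dist_comm] at this
      linarith
  push Not at hz
  let dd : Option A → Option A → ℝ := fun x y => match x, y with
    | none, none => 0
    | none, some b => φ b
    | some a, none => φ a
    | some a, some b => dist (a : U) b
  letI inst : MetricSpace (Option A) :=
    { dist := dd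
      dist_self := by rintro (_ | a) <;> simp [dd]
      dist_comm := by rintro (_ | a) (_ | b) <;> simp [dd, dist_comm]
      dist_triangle := by
        rintro (_ | a) (_ | b) (_ | c)
        · simp [dd]
        · simp [dd]
        · have := hnn b b.2
          simp only [dd]; linarith
        · have := h1 c c.2 b b.2
          simp only [dd]; rw [dist_comm]; linarith
        · simp [dd]
        · simpa [dd] using h2 a a.2 c c.2
        · have := h1 a a.2 b b.2
          simp only [dd]; linarith
        · simpa [dd] using dist_triangle (a : U) b c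
      eq_of_dist_eq_zero := by
        rintro (_ | a) (_ | b) h
        · rfl
        · exact absurd h (hz b b.2)
        · exact absurd h (hz a a.2)
        · have : (a : U) = b := dist_eq_zero.1 h
          exact congrArg some (Subtype.ext this) }
  obtain ⟨g, hg⟩ := hU.universal (Option A) (by
    rintro (_ | a) (_ | b)
    · exact h0D
    · exact hφ b b.2
    · exact hφ a a.2
    · exact hU.dist_mem a b)
  obtain ⟨h, hh⟩ := hU.homogeneous A (fun a => g (some a)) (fun x y => by
    rw [hg.dist_eq]; rfl)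
  refine ⟨h.symm (g none), fun a ha => ?_⟩
  have : dist (h.symm (g none)) a = dist (g none) (h a) := by
    rw [← h.dist_eq, h.apply_symm_apply]
  rw [this, hh ⟨a, ha⟩, hg.dist_eq]
  rfl

theorem zero_mem (hU : IsUrysohn D U) (hD : CapData D cap) : (0 : ℝ) ∈ D := by
  obtain ⟨u⟩ := hU.nonempty hD
  simpa using hU.dist_mem u u

/-- Free one-point extensions. -/
theorem exists_free (hU : IsUrysohn D U) (hD : CapData D cap) {κ : Type} {K : Finset κ}
    (hK : K.Nonempty) (v : κ → U) (r : κ → ℝ) (hr : ∀ k ∈ K, r k ∈ D)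
    (hrr : ∀ k ∈ K, ∀ l ∈ K, dist (v k) (v l) ≤ r k + r l) (A : Finset U) :
    ∃ u : U, ∀ a ∈ A, dist u a = cap (K.inf' hK fun k => r k + dist (v k) a) := by
  have hrnn : ∀ k ∈ K, 0 ≤ r k := fun k hk => by
    have := hrr k hk k hk
    rw [dist_self] at this; linarith
  have hatt : ∀ a : U, ∃ k ∈ K, (K.inf' hK fun k => r k + dist (v k) a) = r k + dist (v k) a :=
    fun a => Finset.exists_mem_eq_inf' hK _
  have hle : ∀ a : U, ∀ k ∈ K, (K.inf' hK fun k => r k + dist (v k) a) ≤ r k + dist (v k) a :=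
    fun a k hk => Finset.inf'_le _ hk
  have hnn : ∀ a : U, 0 ≤ (K.inf' hK fun k => r k + dist (v k) a) := fun a => by
    obtain ⟨k, hk, hk'⟩ := hatt a
    rw [hk']; exact add_nonneg (hrnn k hk) dist_nonneg
  refine one_point hU A _ ?_ (zero_mem hU hD) ?_ ?_
  · intro a _
    obtain ⟨k, hk, hk'⟩ := hatt a
    rw [hk']
    obtain ⟨q, hq⟩ := hD.rat _ (hr k hk)
    obtain ⟨q', hq'⟩ := hD.rat _ (hU.dist_mem (v k) a)
    have h0 : 0 ≤ q + q' := by
      have h3 : (0 : ℝ) ≤ (q : ℝ) + q' := by
        rw [← hq, ← hq']; exact add_nonneg (hrnn k hk) dist_nonneg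
      exact_mod_cast h3
    have := hD.rat_mem (q + q') h0
    rw [hq, hq']
    exact_mod_cast this
  · intro a _ b _
    obtain ⟨k, hk, hk'⟩ := hatt b
    have h1 : (K.inf' hK fun k => r k + dist (v k) a) ≤
        (K.inf' hK fun k => r k + dist (v k) b) + dist a b := by
      refine (hle a k hk).trans ?_
      rw [hk']
      have := dist_triangle (v k) b a
      rw [dist_comm b a] at this
      linarith
    calc cap (K.inf' hK fun k => r k + dist (v k) a)
        ≤ cap ((K.inf' hK fun k => r k + dist (v k) b) + dist a b) := hD.mono h1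
      _ ≤ cap (K.inf' hK fun k => r k + dist (v k) b) + cap (dist a b) :=
          hD.subadd _ _ (hnn b) dist_nonneg
      _ = _ := by rw [hD.cap_of_mem _ (hU.dist_mem a b)]
  · intro a _ b _
    obtain ⟨k, hk, hk'⟩ := hatt a
    obtain ⟨l, hl, hl'⟩ := hatt b
    have h1 : dist a b ≤ (K.inf' hK fun k => r k + dist (v k) a) +
        (K.inf' hK fun k => r k + dist (v k) b) := by
      rw [hk', hl']
      have e1 := dist_triangle a (v k) b
      have e2 := dist_triangle (v k) (v l) b
      have e3 := hrr k hk l hl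
      rw [dist_comm a (v k)] at e1
      linarith
    calc dist a b = cap (dist a b) := (hD.cap_of_mem _ (hU.dist_mem a b)).symm
      _ ≤ cap ((K.inf' hK fun k => r k + dist (v k) a) +
            (K.inf' hK fun k => r k + dist (v k) b)) := hD.mono h1
      _ ≤ _ := hD.subadd _ _ (hnn a) (hnn b)

/-- The weak extension property. -/
theorem exists_weak (hU : IsUrysohn D U) (hD : CapData D cap) {κ : Type} (K : Finset κ)
    (v : κ → U) (r : κ → ℝ) (hr : ∀ k ∈ K, r k ∈ D)
    (hrr : ∀ k ∈ K, ∀ l ∈ K, dist (v k) (v l) ≤ r k + r l) :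
    ∃ u : U, ∀ k ∈ K, dist u (v k) ≤ r k := by
  classical
  rcases K.eq_empty_or_nonempty with rfl | hK
  · obtain ⟨u⟩ := hU.nonempty hD
    exact ⟨u, by simp⟩
  · obtain ⟨u, hu⟩ := exists_free hU hD hK v r hr hrr (K.image v)
    refine ⟨u, fun k hk => ?_⟩
    rw [hu (v k) (Finset.mem_image_of_mem v hk)]
    refine (hD.cap_le _).trans ((Finset.inf'_le _ hk).trans ?_)
    simp

/-- Every pseudometric on `ℕ` with distances in `D` embeds into `U` in a finitely supported
way. -/
theorem exists_fs (hU : IsUrysohn D U) (hD : CapData D cap) (δ : ℕ → ℕ → ℝ)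
    (hδD : ∀ i j, δ i j ∈ D) (h0 : ∀ i, δ i i = 0) (hs : ∀ i j, δ i j = δ j i)
    (ht : ∀ i j k, δ i k ≤ δ i j + δ j k) (υ : ℕ → U) :
    ∃ w : ℕ → U, (∀ i j, dist (w i) (w j) = δ i j) ∧
      ∀ k x, ∃ s ≤ k, cap (dist (υ k) (w s) + δ s x) ≤ dist (υ k) (w x) := by
  classical
  haveI := hU.nonempty hD
  have hδnn : ∀ i j, 0 ≤ δ i j := fun i j => by
    have := ht i j i
    rw [h0, hs j i] at this; linarith
  obtain ⟨w, hw⟩ := exists_seq (α := U)
    (fun n v a => (∀ i < n, dist a (v i) = δ n i) ∧
      (∀ k < n, ∃ i < n, cap (δ n i + dist (v i) (υ k)) ≤ dist a (υ k)))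
    (by
      rintro n v v' a hvv' ⟨ha1, ha2⟩
      refine ⟨fun i hi => ?_, fun k hk => ?_⟩
      · rw [← hvv' i hi]; exact ha1 i hi
      · obtain ⟨i, hi, h⟩ := ha2 k hk
        exact ⟨i, hi, by rw [← hvv' i hi]; exact h⟩)
    (by
      intro n v hv
      rcases Nat.eq_zero_or_pos n with rfl | hn
      · exact ⟨Classical.arbitrary U, by simp⟩
      have hvd : ∀ i < n, ∀ k < n, dist (v i) (v k) = δ i k := by
        intro i hi k hk
        rcases lt_trichotomy i k with h | h | h
        · rw [dist_comm, (hv k hk).1 i h, hs]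
        · subst h; rw [dist_self, h0]
        · exact (hv i hi).1 k h
      have hK : (Finset.range n).Nonempty := ⟨0, Finset.mem_range.2 hn⟩
      obtain ⟨u, hu⟩ := exists_free hU hD hK v (fun i => δ n i) (fun i _ => hδD n i)
        (fun i hi k hk => by
          rw [hvd i (Finset.mem_range.1 hi) k (Finset.mem_range.1 hk), hs n i]
          exact ht i n k)
        ((Finset.range n).image v ∪ (Finset.range n).image υ)
      refine ⟨u, fun i hi => ?_, fun k hk => ?_⟩
      · rw [hu (v i) (Finset.mem_union_left _ (Finset.mem_image_of_mem v (Finset.mem_range.2 hi)))]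
        have : ((Finset.range n).inf' hK fun k => δ n k + dist (v k) (v i)) = δ n i := by
          apply le_antisymm
          · refine (Finset.inf'_le _ (Finset.mem_range.2 hi)).trans ?_
            simp
          · refine Finset.le_inf' _ _ fun k hk => ?_
            rw [hvd k (Finset.mem_range.1 hk) i hi]
            exact ht n k i
        rw [this, hD.cap_of_mem _ (hδD n i)]
      · obtain ⟨i, hi, hi'⟩ := Finset.exists_mem_eq_inf' hK fun i => δ n i + dist (v i) (υ k)
        refine ⟨i, Finset.mem_range.1 hi, ?_⟩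
        rw [hu (υ k) (Finset.mem_union_right _
          (Finset.mem_image_of_mem υ (Finset.mem_range.2 hk))), hi'])
  have hwd : ∀ i k, dist (w i) (w k) = δ i k := by
    intro i k
    rcases lt_trichotomy i k with h | h | h
    · rw [dist_comm, (hw k).1 i h, hs]
    · subst h; rw [dist_self, h0]
    · exact (hw i).1 k h
  refine ⟨w, hwd, fun k x => ?_⟩
  induction x using Nat.strong_induction_on with
  | _ x ih =>
    by_cases hxk : x ≤ k
    · refine ⟨x, hxk, ?_⟩
      rw [h0, add_zero, hD.cap_of_mem _ (hU.dist_mem _ _)]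
    · push Not at hxk
      obtain ⟨i, hi, hi'⟩ := (hw x).2 k hxk
      obtain ⟨s, hsk, hs'⟩ := ih i hi
      refine ⟨s, hsk, ?_⟩
      calc cap (dist (υ k) (w s) + δ s x)
          ≤ cap (δ x i + (dist (υ k) (w s) + δ s i)) := hD.mono (by
            have := ht s i x
            rw [hs i x] at this
            linarith)
        _ ≤ cap (δ x i + cap (dist (υ k) (w s) + δ s i)) :=
            hD.add_cap _ _ (hδnn _ _) (add_nonneg dist_nonneg (hδnn _ _))
        _ ≤ cap (δ x i + dist (υ k) (w i)) := hD.mono (by linarith)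
        _ ≤ dist (υ k) (w x) := by
            rw [dist_comm (υ k) (w i), dist_comm (υ k) (w x)]; exact hi'

/-- Extension of nonexpansive maps along finitely supported extensions. -/
theorem exists_ext (hU : IsUrysohn D U) (hD : CapData D cap) {Y ι : Type} [Countable Y]
    [Nonempty Y] (ρ : Y → Y → ℝ) (hρD : ∀ y y', ρ y y' ∈ D) (h0 : ∀ y, ρ y y = 0)
    (hs : ∀ y y', ρ y y' = ρ y' y) (ht : ∀ x y z, ρ x z ≤ ρ x y + ρ y z)
    (ξ : ι → Y) (g : ι → U) (hg : ∀ i k, dist (g i) (g k) ≤ ρ (ξ i) (ξ k))
    (fs : ∀ y, ∃ S : Finset ι, ∀ i, ∃ s ∈ S, cap (ρ y (ξ s) + ρ (ξ s) (ξ i)) ≤ ρ y (ξ i)) :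
    ∃ G : Y → U, (∀ i, G (ξ i) = g i) ∧ ∀ y y', dist (G y) (G y') ≤ ρ y y' := by
  classical
  haveI := hU.nonempty hD
  obtain ⟨υ, hυ⟩ := exists_surjective_nat Y
  obtain ⟨h, hh⟩ := exists_seq (α := U)
    (fun n h a => (∀ i, dist a (g i) ≤ ρ (υ n) (ξ i)) ∧ ∀ m < n, dist a (h m) ≤ ρ (υ n) (υ m))
    (by
      rintro n v v' a hvv' ⟨ha1, ha2⟩
      exact ⟨ha1, fun m hm => by rw [← hvv' m hm]; exact ha2 m hm⟩)
    (by
      intro n h hh
      obtain ⟨S, hS⟩ := fs (υ n)
      obtain ⟨u, hu⟩ := exists_weak hU hD (S.disjSum (Finset.range n)) (Sum.elim g h)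
        (Sum.elim (fun i => ρ (υ n) (ξ i)) (fun m => ρ (υ n) (υ m)))
        (by
          rintro (i | m) _
          · exact hρD _ _
          · exact hρD _ _)
        (by
          rintro (i | m) hi (k | l) hk
          · have e1 := hg i k
            have e2 := ht (ξ i) (υ n) (ξ k)
            rw [hs (ξ i) (υ n)] at e2
            simpa using e1.trans e2
          · simp only [Finset.inr_mem_disjSum, Finset.mem_range] at hk
            have e1 := (hh l hk).1 i
            have e2 := ht (υ l) (υ n) (ξ i)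
            rw [hs (υ l) (υ n)] at e2
            rw [dist_comm]
            simpa [add_comm] using e1.trans e2
          · simp only [Finset.inr_mem_disjSum, Finset.mem_range] at hi
            have e1 := (hh m hi).1 k
            have e2 := ht (υ m) (υ n) (ξ k)
            rw [hs (υ m) (υ n)] at e2
            simpa using e1.trans e2
          · simp only [Finset.inr_mem_disjSum, Finset.mem_range] at hi hk
            have e2 : ρ (υ m) (υ l) ≤ ρ (υ n) (υ m) + ρ (υ n) (υ l) := by
              have := ht (υ m) (υ n) (υ l)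
              rwa [hs (υ m) (υ n)] at this
            refine le_trans ?_ e2
            rcases lt_trichotomy m l with h' | h' | h'
            · rw [hs]; simpa [dist_comm] using (hh l hk).2 m h'
            · subst h'; simp [h0]
            · simpa using (hh m hi).2 l h')
      refine ⟨u, fun i => ?_, fun m hm => ?_⟩
      · obtain ⟨s, hsS, hs'⟩ := hS i
        have e1 : dist u (g s) ≤ ρ (υ n) (ξ s) := by
          simpa using hu (Sum.inl s) (by simpa using hsS)
        have e2 : dist u (g i) ≤ ρ (υ n) (ξ s) + ρ (ξ s) (ξ i) :=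
          (dist_triangle _ _ _).trans (add_le_add e1 (hg s i))
        calc dist u (g i) = cap (dist u (g i)) := (hD.cap_of_mem _ (hU.dist_mem _ _)).symm
          _ ≤ cap (ρ (υ n) (ξ s) + ρ (ξ s) (ξ i)) := hD.mono e2
          _ ≤ _ := hs'
      · simpa using hu (Sum.inr m) (by simpa using hm))
  have hall : ∀ n m, dist (h n) (h m) ≤ ρ (υ n) (υ m) := by
    intro n m
    rcases lt_trichotomy n m with h' | h' | h'
    · rw [dist_comm, hs]; exact (hh m).2 n h'
    · subst h'; simp [h0]
    · exact (hh n).2 m h'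
  choose idx hidx using hυ
  refine ⟨fun y => h (idx y), fun i => ?_, fun y y' => ?_⟩
  · have := (hh (idx (ξ i))).1 i
    rw [hidx, h0] at this
    exact dist_le_zero.1 this
  · have := hall (idx y) (idx y')
    rwa [hidx, hidx] at this

/-- The good embedding theorem: every countable pseudometric space with distances in `D` embeds
isometrically into `U` in such a way that all nonexpansive maps into `U` extend to `U`. -/
theorem exists_good (hU : IsUrysohn D U) (hD : CapData D cap) {X : Type} [Countable X]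
    [Nonempty X] (δ : X → X → ℝ) (hδD : ∀ x y, δ x y ∈ D) (h0 : ∀ x, δ x x = 0)
    (hs : ∀ x y, δ x y = δ y x) (ht : ∀ x y z, δ x z ≤ δ x y + δ y z) :
    ∃ j : X → U, (∀ x y, dist (j x) (j y) = δ x y) ∧
      ∀ g : X → U, (∀ x y, dist (g x) (g y) ≤ δ x y) →
        ∃ G : U → U, (∀ x, G (j x) = g x) ∧ ∀ u u', dist (G u) (G u') ≤ dist u u' := by
  classical
  haveI := hU.nonempty hD
  haveI := hU.countable
  obtain ⟨υ, hυ⟩ := exists_surjective_nat U
  obtain ⟨e, he⟩ := exists_surjective_nat X
  obtain ⟨w, hw, hfs⟩ := exists_fs hU hD (fun i j => δ (e i) (e j)) (fun _ _ => hδD _ _)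
    (fun _ => h0 _) (fun _ _ => hs _ _) (fun _ _ _ => ht _ _ _) υ
  choose f hf using he
  have hwj : ∀ s, w (f (e s)) = w s := fun s => by
    rw [← dist_le_zero, hw, hf, h0]
  refine ⟨fun x => w (f x), fun x y => by rw [hw, hf, hf], fun g hg => ?_⟩
  refine exists_ext hU hD (fun u u' : U => dist u u') (fun _ _ => hU.dist_mem _ _)
    (fun _ => dist_self _) (fun _ _ => dist_comm _ _) (fun _ _ _ => dist_triangle _ _ _)
    (fun x => w (f x)) g (fun x y => by rw [hw, hf, hf]; exact hg x y) (fun u => ?_)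
  obtain ⟨k, rfl⟩ := hυ u
  refine ⟨(Finset.range (k + 1)).image e, fun x => ?_⟩
  obtain ⟨s, hsk, hs'⟩ := hfs k (f x)
  refine ⟨e s, Finset.mem_image_of_mem e (Finset.mem_range.2 (by omega)), ?_⟩
  rw [hwj, hw, hf]
  rw [hf] at hs'
  exact hs'

end Pool.MP_18f3df_al
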